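import Pool.Agent.H96S.WP.Sym
import Pool.Agent.H391R2.T4.Hil

/-!
Index and core of the subgroup of diagonal type; intersection with the base field `L` of the
embedding problem.
-/

set_option autoImplicit false

namespace Pool.Agent.H96S.WP

open Pool.Agent.H391R2 Pool.Agent.H391R2.T4

section group

variable {E Γ : Type} [Group E] [Group Γ] {α : E →* Γ} {n : ℕ}

/-- The index of the subgroup of diagonal type. -/
theorem index_symD (hn : 0 < n) : (symD α n).index = Nat.card α.ker ^ (n - 1) := by
  classical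
  let i0 : Fin n := ⟨0, hn⟩
  have hker : ∀ (w : SymEP α n) (i : Fin n), w.1.1.left i * (w.1.1.left i0)⁻¹ ∈ α.ker := by
    intro w i
    rw [MonoidHom.mem_ker, map_mul, map_inv, w.2 i, w.2 i0, mul_inv_cancel]
  let φ : SymEP α n → ({i : Fin n // i ≠ i0} → α.ker) := fun w i =>
    ⟨w.1.1.left i * (w.1.1.left i0)⁻¹, hker w i⟩
  have hφ : ∀ w w' : SymEP α n, w⁻¹ * w' ∈ symD α n ↔ φ w = φ w' := by
    intro w w'
    have h1 : ∀ i, (w⁻¹ * w').1.1.left i =
        (w.1.1.left (w.1.1.right i))⁻¹ * w'.1.1.left (w.1.1.right i) := by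
      intro i
      rw [sym_mul_left, sym_inv_left, sym_inv_right, inv_inv]
    rw [mem_symD, funext_iff]
    simp only [h1]
    constructor
    · rintro h ⟨i, hi⟩
      apply Subtype.ext
      change w.1.1.left i * (w.1.1.left i0)⁻¹ = w'.1.1.left i * (w'.1.1.left i0)⁻¹
      have h2 := h (w.1.1.right⁻¹ i) (w.1.1.right⁻¹ i0)
      have h3 : ∀ k, w.1.1.right (w.1.1.right⁻¹ k) = k := fun k => Equiv.apply_symm_apply _ k
      rw [h3, h3] at h2
      have h4 : w'.1.1.left i = w.1.1.left i * ((w.1.1.left i0)⁻¹ * w'.1.1.left i0) := by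
        rw [← h2]; simp
      rw [h4]
      simp [mul_assoc]
    · intro h
      have key : ∀ k, (w.1.1.left k)⁻¹ * w'.1.1.left k =
          (w.1.1.left i0)⁻¹ * w'.1.1.left i0 := by
        intro k
        by_cases hk : k = i0
        · rw [hk]
        · have h2 := congrArg Subtype.val (h ⟨k, hk⟩)
          change w.1.1.left k * (w.1.1.left i0)⁻¹ = w'.1.1.left k * (w'.1.1.left i0)⁻¹ at h2
          have h3 : w'.1.1.left k = w.1.1.left k * (w.1.1.left i0)⁻¹ * w'.1.1.left i0 := by
            rw [h2]; simp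
          rw [h3]
          simp [mul_assoc]
      intro i j
      rw [key (w.1.1.right i), key (w.1.1.right j)]
  let ψ : SymEP α n ⧸ symD α n → ({i : Fin n // i ≠ i0} → α.ker) := fun x =>
    Quotient.liftOn' x φ (by
      intro w w' h
      rw [QuotientGroup.leftRel_apply] at h
      exact (hφ w w').1 h)
  have hψ : Function.Bijective ψ := by
    constructor
    · intro x y
      induction x using QuotientGroup.induction_on with
      | H x =>
        induction y using QuotientGroup.induction_on with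
        | H y =>
          intro h
          exact QuotientGroup.eq.2 ((hφ x y).2 h)
    · intro y
      let f : Fin n → E := fun i => if h : i = i0 then 1 else (y ⟨i, h⟩ : E)
      have hf : ∀ i, α (f i) = 1 := by
        intro i
        by_cases h : i = i0
        · simp [f, h]
        · simp only [f, h, dite_false]
          exact (y ⟨i, h⟩).2
      refine ⟨((sTup f 1 hf : SymEP α n) : SymEP α n ⧸ symD α n), ?_⟩
      funext i
      apply Subtype.ext
      change f i * (f i0)⁻¹ = _
      have h1 : f i0 = 1 := by simp [f]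
      have h2 : f i = (y i : E) := by simp [f, i.2]
      rw [h1, h2, inv_one, mul_one]
  rw [Subgroup.index, Nat.card_congr (Equiv.ofBijective ψ hψ), Nat.card_fun]
  congr 1
  rw [Nat.card_eq_fintype_card, Fintype.card_subtype_compl, Fintype.card_fin,
    Fintype.card_subtype_eq]

/-- The core of the subgroup of diagonal type. -/
theorem core_symD (hnt : ∃ k : α.ker, k ≠ 1) (hC : ∀ x : E, (∀ k ∈ α.ker, k * x = x * k) → x = 1)
    (hn : 3 ≤ n) (N : Subgroup (SymEP α n)) (hN : N.Normal) (hle : N ≤ symD α n) : N = ⊥ := by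
  classical
  rw [eq_bot_iff]
  intro w hw
  have hconj : ∀ i (k : α.ker) j l, (Pi.mulSingle i (k : E) : Fin n → E) j * w.1.1.left j *
        (Pi.mulSingle i (k : E)⁻¹ : Fin n → E) (w.1.1.right⁻¹ j) =
      (Pi.mulSingle i (k : E) : Fin n → E) l * w.1.1.left l *
        (Pi.mulSingle i (k : E)⁻¹ : Fin n → E) (w.1.1.right⁻¹ l) := by
    intro i k j l
    rw [← sFac_conj_left, ← sFac_conj_left]
    exact hle (hN.conj_mem w hw _) j l
  have hD : ∀ j k, w.1.1.left j = w.1.1.left k := hle hw
  obtain ⟨g, hg⟩ := hnt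
  have hr : w.1.1.right = 1 := by
    by_contra hne
    obtain ⟨i, hi⟩ : ∃ i, w.1.1.right⁻¹ i ≠ i := by
      by_contra hcon
      push Not at hcon
      apply hne
      have : w.1.1.right⁻¹ = 1 := Equiv.ext hcon
      rwa [inv_eq_one] at this
    obtain ⟨k, hk1, hk2⟩ : ∃ k, k ≠ i ∧ w.1.1.right⁻¹ k ≠ i := by
      have hc : (({i, w.1.1.right i} : Finset (Fin n))).card < Fintype.card (Fin n) := by
        rw [Fintype.card_fin]
        exact lt_of_le_of_lt Finset.card_le_two (by omega)
      obtain ⟨k, hk⟩ := Finset.exists_mem_notMem_of_card_lt_card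
        (s := ({i, w.1.1.right i} : Finset (Fin n))) (t := Finset.univ)
        (by rw [Finset.card_univ]; exact hc)
      refine ⟨k, ?_, ?_⟩
      · intro h; apply hk.2; simp [h]
      · intro h; apply hk.2
        have : k = w.1.1.right i := by
          rw [← h]; exact (Equiv.apply_symm_apply w.1.1.right k).symm
        simp [this]
    have h1 := hconj i g i k
    rw [Pi.mulSingle_eq_same, Pi.mulSingle_eq_of_ne hi, Pi.mulSingle_eq_of_ne hk1,
      Pi.mulSingle_eq_of_ne hk2, mul_one, mul_one, one_mul, hD k i] at h1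
    exact hg (Subtype.ext (mul_eq_right.1 h1))
  have hl : ∀ i, w.1.1.left i = 1 := by
    intro i
    obtain ⟨l, hl⟩ : ∃ l : Fin n, l ≠ i := by
      have : Nontrivial (Fin n) := Fin.nontrivial_iff_two_le.2 (by omega)
      exact exists_ne i
    apply hC
    intro k hk
    have h1 := hconj i ⟨k, hk⟩ i l
    rw [hr, inv_one, Equiv.Perm.one_apply, Equiv.Perm.one_apply, Pi.mulSingle_eq_same,
      Pi.mulSingle_eq_same, Pi.mulSingle_eq_of_ne hl, Pi.mulSingle_eq_of_ne hl, one_mul, mul_one,
      hD l i] at h1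
    exact mul_inv_eq_iff_eq_mul.1 h1
  rw [Subgroup.mem_bot]
  apply sym_ext
  · exact hl
  · exact hr
  · have h2 := w.2 ⟨0, by omega⟩
    rw [← h2, hl, map_one]
    rfl

/-- The subgroup of product type maps onto `Γ`. -/
theorem symU_onto {M : Subgroup E} (hα : Function.Surjective α) (hsup : M ⊔ α.ker = ⊤) (ρ : Γ) :
    ∃ u ∈ symU α n M, symProj α n u = ρ := by
  obtain ⟨g, rfl⟩ := hα ρ
  have h1 : g ∈ M ⊔ α.ker := by rw [hsup]; exact Subgroup.mem_top _
  obtain ⟨m, hm, k, hk, hmk⟩ := Subgroup.mem_sup_of_normal_right.1 h1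
  refine ⟨sConst α n m, fun _ => hm, ?_⟩
  change α m = α g
  rw [← hmk, map_mul, MonoidHom.mem_ker.1 hk, mul_one]

/-- The subgroup of diagonal type maps onto `Γ`. -/
theorem symD_onto (hα : Function.Surjective α) (ρ : Γ) :
    ∃ u ∈ symD α n, symProj α n u = ρ := by
  obtain ⟨g, rfl⟩ := hα ρ
  exact ⟨sConst α n g, fun _ _ => rfl, rfl⟩

end group

section field

variable {K L T F : Type} [Field K] [Field L] [Field T] [Field F] [Algebra K L] [Algebra T F]
  [Algebra L F] [Algebra K F] [IsScalarTower K L F] {W : Type} [Group W]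

/-- If `U` maps onto `Gal(L/K)`, the fixed field of `U` meets `L` in `K`. -/
theorem fld_inter [FiniteDimensional K L] [IsGalois K L] (π : W →* (L ≃ₐ[K] L))
    (γ : (F ≃ₐ[T] F) ≃* W)
    (hγ : ∀ (σ : F ≃ₐ[T] F) (x : L), σ (algebraMap L F x) = algebraMap L F (π (γ σ) x))
    (U : Subgroup W) (hU : ∀ ρ, ∃ u ∈ U, π u = ρ) (x : L)
    (hx : algebraMap L F x ∈ fld γ.symm U) :
    algebraMap L F x ∈ Set.range (algebraMap K F) := by
  have h1 : x ∈ (⊥ : IntermediateField K L) := by
    rw [← IsGalois.fixedField_top, IntermediateField.mem_fixedField_iff]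
    intro ρ _
    obtain ⟨u, hu, rfl⟩ := hU ρ
    have h2 := (mem_fld.1 hx) u hu
    rw [hγ, MulEquiv.apply_symm_apply] at h2
    exact (algebraMap L F).injective h2
  obtain ⟨y, hy⟩ := IntermediateField.mem_bot.1 h1
  refine ⟨y, ?_⟩
  rw [← hy, ← IsScalarTower.algebraMap_apply]

/-- A weakly solvable embedding problem is given by a surjective homomorphism. -/
theorem weak_surj (K L E : Type) [Field K] [Field L] [Algebra K L] [FiniteDimensional K L]
    [IsGalois K L] [Group E] (α : E →* (L ≃ₐ[K] L)) (hw : WeakSol K L E α) :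
    Function.Surjective α := by
  intro ρ
  obtain ⟨L', i1, i2, i3, i4, i5, i6, s, hs⟩ := hw
  obtain ⟨σ, rfl⟩ := AlgEquiv.restrictNormalHom_surjective (F := K) (K₁ := L) L' ρ
  exact ⟨s σ, hs σ⟩

end field

end Pool.Agent.H96S.WP
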