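import Pool.Agent.H96S.WP.Grp

/-!
The diagonal subgroup `{(g, …, g; σ)}` of `G ≀ S_n` for a nonabelian simple group `G`.
-/

set_option autoImplicit false

namespace Pool.Agent.H96S.WP

open Pool.Agent.H391R2

variable {G : Type} [Group G] {n : ℕ}

/-- The subgroup `{(g, …, g; σ)}` of `G ≀ S_n`. -/
def diagSub (G : Type) [Group G] (n : ℕ) : Subgroup (Wr G n) where
  carrier := {w | ∀ i j, w.left i = w.left j}
  mul_mem' := by
    intro a b ha hb i j
    rw [wr_mul_left, wr_mul_left, ha i j, hb _ (a.right⁻¹ j)]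
  one_mem' := fun i j => rfl
  inv_mem' := by
    intro a ha i j
    rw [wr_inv_left, wr_inv_left, ha _ (a.right j)]

theorem mem_diagSub {w : Wr G n} : w ∈ diagSub G n ↔ ∀ i j, w.left i = w.left j := Iff.rfl

theorem inr_mem_diagSub (σ : Equiv.Perm (Fin n)) :
    (SemidirectProduct.inr σ : Wr G n) ∈ diagSub G n := fun _ _ => rfl

theorem const_mem_diagSub (g : G) :
    (SemidirectProduct.inl (fun _ => g) : Wr G n) ∈ diagSub G n := fun _ _ => rfl

/-- In a nonabelian simple group every `x ≠ 1` has a conjugate with which it does not commute. -/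
theorem exists_conj_ne [IsSimpleGroup G] (hna : ∃ a b : G, a * b ≠ b * a) {x : G} (hx : x ≠ 1) :
    ∃ s : G, x * (s * x * s⁻¹) * x⁻¹ * (s * x * s⁻¹)⁻¹ ≠ 1 := by
  by_contra hcon
  push Not at hcon
  have h1 : ∀ s : G, s * x * s⁻¹ ∈ Subgroup.centralizer {x} := by
    intro s
    rw [Subgroup.mem_centralizer_singleton_iff]
    have := hcon s
    rw [mul_inv_eq_one, mul_inv_eq_iff_eq_mul] at this
    exact this.symm
  have h2 : Subgroup.normalClosure {x} ≤ Subgroup.centralizer {x} := by
    rw [Subgroup.normalClosure, Subgroup.closure_le]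
    intro y hy
    obtain ⟨a, ha, hc⟩ := Group.mem_conjugatesOfSet_iff.1 hy
    obtain ⟨s, hs⟩ := isConj_iff.1 hc
    rw [Set.mem_singleton_iff] at ha
    subst ha
    rw [← hs]
    exact h1 _
  have h3 : Subgroup.normalClosure {x} = ⊤ := by
    rcases (Subgroup.normalClosure_normal (s := {x})).eq_bot_or_eq_top with h | h
    · exfalso
      have h4 : x ∈ Subgroup.normalClosure {x} := Subgroup.subset_normalClosure rfl
      rw [h, Subgroup.mem_bot] at h4
      exact hx h4
    · exact h
  rw [h3, top_le_iff] at h2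
  have h5 : x ∈ Subgroup.center G := by
    rw [Subgroup.mem_center_iff]
    intro g
    have : g ∈ Subgroup.centralizer {x} := by rw [h2]; exact Subgroup.mem_top _
    exact Subgroup.mem_centralizer_singleton_iff.1 this
  rcases (inferInstance : (Subgroup.center G).Normal).eq_bot_or_eq_top with h | h
  · rw [h, Subgroup.mem_bot] at h5
    exact hx h5
  · obtain ⟨a, b, hab⟩ := hna
    apply hab
    have h6 : b ∈ Subgroup.center G := by rw [h]; exact Subgroup.mem_top _
    exact Subgroup.mem_center_iff.1 h6 a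

/-- **The diagonal subgroup is maximal.** -/
theorem coatom_diagSub [IsSimpleGroup G] (hna : ∃ a b : G, a * b ≠ b * a) (hn : 2 ≤ n) :
    IsCoatom (diagSub G n) := by
  classical
  have hnt : Nontrivial G := inferInstance
  constructor
  · -- different from the whole group
    intro h
    obtain ⟨x, hx⟩ := exists_ne (1 : G)
    have h1 : (fac ⟨0, by omega⟩ x : Wr G n) ∈ diagSub G n := by rw [h]; exact Subgroup.mem_top _
    have h2 := h1 ⟨0, by omega⟩ ⟨1, by omega⟩
    rw [fac_left, Pi.mulSingle_eq_same, Pi.mulSingle_eq_of_ne] at h2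
    · exact hx h2
    · intro h3
      have := congrArg Fin.val h3
      simp at this
  · intro Y hlt
    have hr : ∀ σ, (SemidirectProduct.inr σ : Wr G n) ∈ Y := fun σ => hlt.le (inr_mem_diagSub σ)
    let B : Subgroup (Fin n → G) := Y.comap (SemidirectProduct.inl : (Fin n → G) →* Wr G n)
    have hBc : ∀ g : G, (fun _ => g) ∈ B := fun g => hlt.le (const_mem_diagSub g)
    have hBσ : ∀ f ∈ B, ∀ σ : Equiv.Perm (Fin n), (fun i => f (σ⁻¹ i)) ∈ B := by
      intro f hf σ
      change (SemidirectProduct.inl _ : Wr G n) ∈ Y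
      have h1 : (SemidirectProduct.inr σ : Wr G n) * SemidirectProduct.inl f *
          (SemidirectProduct.inr σ)⁻¹ ∈ Y := Y.mul_mem (Y.mul_mem (hr _) hf) (Y.inv_mem (hr _))
      rw [← map_inv, ← SemidirectProduct.inl_aut] at h1
      exact h1
    -- a nontrivial element of `B` with a trivial coordinate
    obtain ⟨f₀, hf₀, hne₀, j₀, hj₀⟩ : ∃ f ∈ B, f ≠ 1 ∧ ∃ j, f j = 1 := by
      obtain ⟨w, hw, hwD⟩ := SetLike.exists_of_lt hlt
      rw [mem_diagSub] at hwD
      push Not at hwD
      obtain ⟨i, j, hij⟩ := hwD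
      have h1 : w.left ∈ B := (mem_of_inl hr w).1 hw
      refine ⟨fun k => w.left k * (w.left j)⁻¹, B.mul_mem h1 (B.inv_mem (hBc (w.left j))), ?_,
        j, mul_inv_cancel _⟩
      intro h2
      have h3 := congrFun h2 i
      exact hij (mul_inv_eq_one.1 h3)
    -- minimal support
    let supp : (Fin n → G) → Finset (Fin n) := fun f => Finset.univ.filter fun i => f i ≠ 1
    have hex : ∃ m, ∃ f ∈ B, f ≠ 1 ∧ (∃ j, f j = 1) ∧ (supp f).card = m :=
      ⟨_, f₀, hf₀, hne₀, ⟨j₀, hj₀⟩, rfl⟩
    obtain ⟨f, hf, hne, ⟨j, hj⟩, hcard⟩ := Nat.find_spec hex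
    have hmin : ∀ f' ∈ B, f' ≠ 1 → (∃ j, f' j = 1) → Nat.find hex ≤ (supp f').card :=
      fun f' h1 h2 h3 => Nat.find_min' hex ⟨f', h1, h2, h3, rfl⟩
    obtain ⟨i, hi⟩ : ∃ i, f i ≠ 1 := by
      by_contra hcon
      push Not at hcon
      exact hne (funext hcon)
    have hone : ∀ k, k ≠ i → f k = 1 := by
      intro k hki
      by_contra hk
      obtain ⟨s, hs⟩ := exists_conj_ne hna hk
      have hij : i ≠ j := fun h => hi (h ▸ hj)
      have hkj : k ≠ j := fun h => hk (h ▸ hj)
      -- move the support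
      let f' : Fin n → G := fun l => s * f ((Equiv.swap i j)⁻¹ l) * s⁻¹
      have hf' : f' ∈ B :=
        B.mul_mem (B.mul_mem (hBc s) (hBσ f hf (Equiv.swap i j))) (B.inv_mem (hBc s))
      let c : Fin n → G := f * f' * f⁻¹ * f'⁻¹
      have hcB : c ∈ B := B.mul_mem (B.mul_mem (B.mul_mem hf hf') (B.inv_mem hf)) (B.inv_mem hf')
      have hck : c k ≠ 1 := by
        change f k * (s * f ((Equiv.swap i j)⁻¹ k) * s⁻¹) * (f k)⁻¹ *
          (s * f ((Equiv.swap i j)⁻¹ k) * s⁻¹)⁻¹ ≠ 1
        rw [Equiv.swap_inv, Equiv.swap_apply_of_ne_of_ne hki hkj]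
        exact hs
      have hci : c i = 1 := by
        change f i * (s * f ((Equiv.swap i j)⁻¹ i) * s⁻¹) * (f i)⁻¹ *
          (s * f ((Equiv.swap i j)⁻¹ i) * s⁻¹)⁻¹ = 1
        rw [Equiv.swap_inv, Equiv.swap_apply_left, hj]
        simp
      have hsub : supp c ⊂ supp f := by
        rw [Finset.ssubset_iff_of_subset]
        · refine ⟨i, ?_, ?_⟩
          · simp [supp, hi]
          · simp [supp, hci]
        · intro l hl
          simp only [supp, Finset.mem_filter, Finset.mem_univ, true_and] at hl ⊢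
          intro hfl
          apply hl
          change f l * f' l * (f l)⁻¹ * (f' l)⁻¹ = 1
          rw [hfl]
          simp
      have h1 := hmin c hcB (fun h => hck (congrFun h k)) ⟨i, hci⟩
      have h2 := Finset.card_lt_card hsub
      omega
    have hf1 : f = Pi.mulSingle i (f i) := by
      funext k
      by_cases hki : k = i
      · subst hki; rw [Pi.mulSingle_eq_same]
      · rw [Pi.mulSingle_eq_of_ne hki, hone k hki]
    -- the normal subgroup of `G`
    let X : Subgroup G := Y.comap (fac i)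
    have hXn : X.Normal := by
      constructor
      intro x hx g
      change (fac i (g * x * g⁻¹) : Wr G n) ∈ Y
      have h1 := inl_conj_fac (fun _ : Fin n => g) i x
      change _ = (fac i (g * x * g⁻¹) : Wr G n) at h1
      rw [← h1]
      exact Y.mul_mem (Y.mul_mem (hBc g) hx) (Y.inv_mem (hBc g))
    have hXtop : X = ⊤ := by
      rcases hXn.eq_bot_or_eq_top with h | h
      · exfalso
        have h1 : f i ∈ X := by
          change (SemidirectProduct.inl (Pi.mulSingle i (f i)) : Wr G n) ∈ Y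
          rw [← hf1]
          exact hf
        rw [h, Subgroup.mem_bot] at h1
        exact hi h1
      · exact h
    rw [eq_top_iff]
    intro w _
    rw [mem_of_inl hr]
    apply inl_mem_of_fac
    intro k
    have h1 := inr_conj_fac (G := G) (Equiv.swap i k) i (w.left k)
    rw [Equiv.swap_apply_left] at h1
    rw [← h1]
    have h2 : w.left k ∈ X := by rw [hXtop]; exact Subgroup.mem_top _
    exact Y.mul_mem (Y.mul_mem (hr _) h2) (Y.inv_mem (hr _))

/-- The diagonal subgroup contains no nontrivial normal subgroup. -/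
theorem core_diagSub [IsSimpleGroup G] (hna : ∃ a b : G, a * b ≠ b * a) (hn : 3 ≤ n)
    (N : Subgroup (Wr G n)) (hN : N.Normal) (hle : N ≤ diagSub G n) : N = ⊥ := by
  classical
  rw [eq_bot_iff]
  intro w hw
  have hconj : ∀ i g j k, (Pi.mulSingle i g : Fin n → G) j * w.left j *
        (Pi.mulSingle i g⁻¹ : Fin n → G) (w.right⁻¹ j) =
      (Pi.mulSingle i g : Fin n → G) k * w.left k *
        (Pi.mulSingle i g⁻¹ : Fin n → G) (w.right⁻¹ k) := by
    intro i g j k
    rw [← conj_fac_left, ← conj_fac_left]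
    exact hle (hN.conj_mem w hw _) j k
  have hD : ∀ j k, w.left j = w.left k := hle hw
  obtain ⟨g, hg⟩ := exists_ne (1 : G)
  have hr : w.right = 1 := by
    by_contra hne
    obtain ⟨i, hi⟩ : ∃ i, w.right⁻¹ i ≠ i := by
      by_contra hcon
      push Not at hcon
      apply hne
      have : w.right⁻¹ = 1 := Equiv.ext hcon
      rwa [inv_eq_one] at this
    -- an index different from `i` and `w.right i`
    obtain ⟨k, hk1, hk2⟩ : ∃ k, k ≠ i ∧ w.right⁻¹ k ≠ i := by
      have hc : (({i, w.right i} : Finset (Fin n))).card < Fintype.card (Fin n) := by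
        rw [Fintype.card_fin]
        exact lt_of_le_of_lt Finset.card_le_two (by omega)
      obtain ⟨k, hk⟩ := Finset.exists_mem_notMem_of_card_lt_card
        (s := ({i, w.right i} : Finset (Fin n))) (t := Finset.univ)
        (by rw [Finset.card_univ]; exact hc)
      refine ⟨k, ?_, ?_⟩
      · intro h; apply hk.2; simp [h]
      · intro h; apply hk.2
        have : k = w.right i := by rw [← h]; exact (Equiv.apply_symm_apply w.right k).symm
        simp [this]
    have h1 := hconj i g i k
    rw [Pi.mulSingle_eq_same, Pi.mulSingle_eq_of_ne hi, Pi.mulSingle_eq_of_ne hk1,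
      Pi.mulSingle_eq_of_ne hk2, mul_one, mul_one, one_mul, hD k i] at h1
    exact hg (mul_eq_right.1 h1)
  have hl : ∀ i, w.left i = 1 := by
    intro i
    by_contra hx
    obtain ⟨k, hk⟩ : ∃ k : Fin n, k ≠ i := by
      have : Nontrivial (Fin n) := Fin.nontrivial_iff_two_le.2 (by omega)
      exact exists_ne i
    obtain ⟨s, hs⟩ := exists_conj_ne hna hx
    apply hs
    have h1 := hconj i s i k
    rw [hr, inv_one, Equiv.Perm.one_apply, Equiv.Perm.one_apply, Pi.mulSingle_eq_same,
      Pi.mulSingle_eq_same, Pi.mulSingle_eq_of_ne hk, Pi.mulSingle_eq_of_ne hk, one_mul, mul_one,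
      hD k i] at h1
    rw [h1]
    simp
  rw [Subgroup.mem_bot]
  refine SemidirectProduct.ext ?_ hr
  funext i
  exact hl i

/-- The diagonal subgroup is `G × S_n`. -/
def diagEquiv (G : Type) [Group G] (n : ℕ) (hn : 0 < n) :
    diagSub G n ≃* G × Equiv.Perm (Fin n) where
  toFun w := (w.1.left ⟨0, hn⟩, w.1.right)
  invFun x := ⟨SemidirectProduct.mk (fun _ => x.1) x.2, fun _ _ => rfl⟩
  left_inv := by
    rintro ⟨w, hw⟩
    apply Subtype.ext
    refine SemidirectProduct.ext ?_ rfl
    funext i
    exact hw _ _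
  right_inv := fun _ => rfl
  map_mul' := by
    rintro ⟨w, hw⟩ ⟨w', hw'⟩
    apply Prod.ext
    · change (w * w').left _ = w.left _ * w'.left _
      rw [wr_mul_left, hw' _ ⟨0, hn⟩]
    · rfl

theorem index_diagSub [Finite G] (hn : 0 < n) :
    (diagSub G n).index = Nat.card G ^ (n - 1) := by
  have h1 : Nat.card (Wr G n) = Nat.card G ^ n * Nat.card (Equiv.Perm (Fin n)) := by
    rw [Wr, SemidirectProduct.card, Nat.card_fun, Nat.card_fin]
  have h2 := (diagSub G n).card_mul_index
  rw [h1, Nat.card_congr (diagEquiv G n hn).toEquiv, Nat.card_prod] at h2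
  have h3 : 0 < Nat.card G := Nat.card_pos
  have h4 : 0 < Nat.card (Equiv.Perm (Fin n)) := Nat.card_pos
  have h5 : Nat.card G ^ n = Nat.card G * Nat.card G ^ (n - 1) := by
    obtain ⟨k, rfl⟩ := Nat.exists_eq_succ_of_ne_zero hn.ne'
    rw [Nat.succ_sub_one, pow_succ, mul_comm]
  rw [h5] at h2
  have h6 : Nat.card G * Nat.card (Equiv.Perm (Fin n)) * (diagSub G n).index =
      Nat.card G * Nat.card (Equiv.Perm (Fin n)) * Nat.card G ^ (n - 1) := by
    rw [h2]; ring
  exact Nat.eq_of_mul_eq_mul_left (Nat.mul_pos h3 h4) h6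

end Pool.Agent.H96S.WP
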