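import Mathlib

/-!
The subfield of a finite Galois extension `L/K` attached to a subgroup of a group `W` which is
identified with the Galois group.
-/

set_option autoImplicit false

namespace Pool.Agent.H96S.WP

variable {K L : Type} [Field K] [Field L] [Algebra K L] {W : Type} [Group W]

/-- The fixed field of the subgroup `U` of `W ≅ Gal(L/K)`. -/
noncomputable def fld (e : W ≃* (L ≃ₐ[K] L)) (U : Subgroup W) : IntermediateField K L :=
  IntermediateField.fixedField (U.map e.toMonoidHom)

theorem mem_fld {e : W ≃* (L ≃ₐ[K] L)} {U : Subgroup W} {x : L} :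
    x ∈ fld e U ↔ ∀ w ∈ U, e w x = x := by
  rw [fld, IntermediateField.mem_fixedField_iff]
  constructor
  · intro h w hw
    exact h _ ⟨w, hw, rfl⟩
  · rintro h _ ⟨w, hw, rfl⟩
    exact h w hw

theorem fixing_fld [FiniteDimensional K L] (e : W ≃* (L ≃ₐ[K] L)) (U : Subgroup W) :
    (fld e U).fixingSubgroup = U.map e.toMonoidHom :=
  IntermediateField.fixingSubgroup_fixedField _

theorem fld_le_iff [FiniteDimensional K L] [IsGalois K L] (e : W ≃* (L ≃ₐ[K] L))
    (U V : Subgroup W) : fld e U ≤ fld e V ↔ V ≤ U := by
  constructor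
  · intro h
    have h1 := IntermediateField.fixingSubgroup_antitone h
    rw [fixing_fld, fixing_fld] at h1
    exact (Subgroup.map_le_map_iff_of_injective e.injective).1 h1
  · intro h x hx
    rw [mem_fld] at hx ⊢
    exact fun w hw => hx w (h hw)

theorem exists_of_le_fld [FiniteDimensional K L] [IsGalois K L] (e : W ≃* (L ≃ₐ[K] L))
    (U : Subgroup W) (F : IntermediateField K L) (hF : F ≤ fld e U) :
    ∃ Y : Subgroup W, U ≤ Y ∧ F = fld e Y := by
  refine ⟨F.fixingSubgroup.comap e.toMonoidHom, ?_, ?_⟩
  · intro w hw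
    have h1 := IntermediateField.fixingSubgroup_antitone hF
    rw [fixing_fld] at h1
    exact h1 ⟨w, hw, rfl⟩
  · rw [fld, Subgroup.map_comap_eq_self_of_surjective e.surjective]
    exact (IsGalois.fixedField_fixingSubgroup F).symm

theorem finrank_fld [FiniteDimensional K L] [IsGalois K L] (e : W ≃* (L ≃ₐ[K] L))
    (U : Subgroup W) : Module.finrank K (fld e U) = U.index := by
  rw [IntermediateField.finrank_eq_fixingSubgroup_index, fixing_fld]
  exact Subgroup.index_map_equiv U e

theorem fld_top [FiniteDimensional K L] [IsGalois K L] (e : W ≃* (L ≃ₐ[K] L)) :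
    fld e (⊤ : Subgroup W) = ⊥ := by
  rw [fld, Subgroup.map_top_of_surjective _ e.surjective]
  exact IsGalois.fixedField_top

/-- If `U` contains no nontrivial normal subgroup, then `L` is the Galois closure of `L^U`. -/
theorem closure_fld [FiniteDimensional K L] [IsGalois K L] (e : W ≃* (L ≃ₐ[K] L))
    (U : Subgroup W) (hU : ∀ N : Subgroup W, N.Normal → N ≤ U → N = ⊥)
    (F : IntermediateField K L) (hF : fld e U ≤ F) [Normal K F] : F = ⊤ := by
  have h1 := IntermediateField.fixingSubgroup_antitone hF
  rw [fixing_fld] at h1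
  have hs : Algebra.IsSeparable K F := inferInstance
  have hg : IsGalois K F := ⟨⟩
  have h2 : F.fixingSubgroup.Normal := IsGalois.fixingSubgroup_normal_of_isGalois F
  have h3 : F.fixingSubgroup.comap e.toMonoidHom = ⊥ := by
    apply hU _ (h2.comap _)
    intro w hw
    obtain ⟨u, hu, hue⟩ := h1 hw
    rwa [← e.injective hue]
  have h4 : F.fixingSubgroup = ⊥ := by
    have h5 := Subgroup.map_comap_eq_self_of_surjective (f := e.toMonoidHom) e.surjective
      F.fixingSubgroup
    rw [← h5, h3, Subgroup.map_bot]
  rw [← IsGalois.fixedField_fixingSubgroup F, h4]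
  exact IntermediateField.fixedField_bot

/-- The Galois group of `L` over the fixed field of `U` is `U`. -/
noncomputable def galEquiv [FiniteDimensional K L] (e : W ≃* (L ≃ₐ[K] L))
    (U : Subgroup W) : U ≃* (L ≃ₐ[fld e U] L) :=
  (U.equivMapOfInjective e.toMonoidHom e.injective).trans
    (IntermediateField.subgroupEquivAlgEquiv (U.map e.toMonoidHom))

theorem galEquiv_apply [FiniteDimensional K L] (e : W ≃* (L ≃ₐ[K] L))
    (U : Subgroup W) (u : U) (x : L) : galEquiv e U u x = e u x := rfl

/-- A quotient of `U` is the Galois group of a subextension of `L` over the fixed field of `U`. -/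
theorem quotient_fld [FiniteDimensional K L] [IsGalois K L] (e : W ≃* (L ≃ₐ[K] L))
    (U : Subgroup W) {Q : Type} [Group Q] (q : U →* Q) (hq : Function.Surjective q) :
    ∃ F' : IntermediateField (fld e U) L,
      (∀ x : L, x ∈ F' ↔ ∀ u : U, q u = 1 → e u x = x) ∧ IsGalois (fld e U) F' ∧
      Nonempty (Q ≃* (F' ≃ₐ[fld e U] F')) := by
  let g := galEquiv e U
  let r : (L ≃ₐ[fld e U] L) →* Q := q.comp g.symm.toMonoidHom
  have hr : Function.Surjective r := hq.comp g.symm.surjective
  refine ⟨IntermediateField.fixedField r.ker, ?_, ?_, ?_⟩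
  · intro x
    rw [IntermediateField.mem_fixedField_iff]
    constructor
    · intro h u hu
      have h1 := h (g u) (by
        rw [MonoidHom.mem_ker]
        change q (g.symm (g u)) = 1
        rw [MulEquiv.symm_apply_apply]
        exact hu)
      exact h1
    · intro h σ hσ
      have h1 := h (g.symm σ) hσ
      rw [← galEquiv_apply] at h1
      change g (g.symm σ) x = x at h1
      rwa [MulEquiv.apply_symm_apply] at h1
  · exact IsGalois.of_fixedField_normal_subgroup _
  · exact ⟨(QuotientGroup.quotientKerEquivOfSurjective r hr).symm.trans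
      (IsGalois.normalAutEquivQuotient r.ker)⟩

end Pool.Agent.H96S.WP
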