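import Pool.Agent.H96S.WP.Grp

/-!
The subgroups `{(f, σ) : σ 0 = 0, f 0 ∈ X}` of `G ≀ S_n` and the subgroups above them.
-/

set_option autoImplicit false

namespace Pool.Agent.H96S.WP

open Pool.Agent.H391R2

variable {G : Type} [Group G] {n : ℕ}

/-- The subgroup `{(f, σ) : σ a = a, f a ∈ X}` of `G ≀ S_n`. -/
def ptSub (a : Fin n) (X : Subgroup G) : Subgroup (Wr G n) where
  carrier := {w | w.right a = a ∧ w.left a ∈ X}
  mul_mem' := by
    rintro u v ⟨hu, hu'⟩ ⟨hv, hv'⟩
    refine ⟨?_, ?_⟩
    · rw [wr_mul_right, Equiv.Perm.mul_apply, hv, hu]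
    · rw [wr_mul_left]
      have : u.right⁻¹ a = a := by
        rw [Equiv.Perm.inv_eq_iff_eq]; exact hu.symm
      rw [this]
      exact X.mul_mem hu' hv'
  one_mem' := ⟨rfl, X.one_mem⟩
  inv_mem' := by
    rintro u ⟨hu, hu'⟩
    refine ⟨?_, ?_⟩
    · rw [SemidirectProduct.inv_right, Equiv.Perm.inv_eq_iff_eq]; exact hu.symm
    · rw [wr_inv_left, hu]
      exact X.inv_mem hu'

theorem mem_ptSub {a : Fin n} {X : Subgroup G} {w : Wr G n} :
    w ∈ ptSub a X ↔ w.right a = a ∧ w.left a ∈ X := Iff.rfl

theorem fac_mem_ptSub {a : Fin n} {X : Subgroup G} {x : G} :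
    (fac a x : Wr G n) ∈ ptSub a X ↔ x ∈ X := by
  rw [mem_ptSub, fac_left, fac_right, Pi.mulSingle_eq_same]
  exact and_iff_right rfl

theorem ptSub_le_iff {a : Fin n} {X X' : Subgroup G} :
    ptSub a X ≤ ptSub a X' ↔ X ≤ X' := by
  constructor
  · intro h x hx
    exact fac_mem_ptSub.1 (h (fac_mem_ptSub.2 hx))
  · rintro h w ⟨h1, h2⟩
    exact ⟨h1, h h2⟩

/-- The subgroups above `{(f, σ) : σ a = a, f a ∈ H}`. -/
theorem over_ptSub (a : Fin n) (H : Subgroup G) (Y : Subgroup (Wr G n)) (hY : ptSub a H ≤ Y) :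
    Y = ⊤ ∨ ∃ X : Subgroup G, H ≤ X ∧ Y = ptSub a X := by
  classical
  by_cases hst : ∀ w ∈ Y, w.right a = a
  · right
    refine ⟨Y.comap (fac a), fun x hx => hY (fac_mem_ptSub.2 hx), ?_⟩
    -- the element `w` differs from `fac a (w.left a)` by an element of `ptSub a H`
    have key : ∀ w : Wr G n, w.right a = a → (w ∈ Y ↔ (fac a (w.left a) : Wr G n) ∈ Y) := by
      intro w hw
      have h1 : (fac a (w.left a) : Wr G n)⁻¹ * w ∈ Y := by
        apply hY
        refine ⟨?_, ?_⟩
        · rw [wr_mul_right, SemidirectProduct.inv_right, fac_right, inv_one, one_mul, hw]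
        · rw [wr_mul_left, wr_inv_left, SemidirectProduct.inv_right, fac_right, fac_left,
            inv_one, inv_one, Equiv.Perm.one_apply, Pi.mulSingle_eq_same, inv_mul_cancel]
          exact H.one_mem
      constructor
      · intro h
        have h2 := Y.mul_mem h (Y.inv_mem h1)
        simpa using h2
      · intro h
        have h2 := Y.mul_mem h h1
        simpa using h2
    ext w
    constructor
    · intro hw
      exact ⟨hst w hw, (key w (hst w hw)).1 hw⟩
    · rintro ⟨h1, h2⟩
      exact (key w h1).2 h2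
  · left
    push Not at hst
    obtain ⟨w, hw, hwa⟩ := hst
    -- the permutation part of `w`
    have hfac1 : ∀ i, i ≠ a → ∀ x, (fac i x : Wr G n) ∈ Y := by
      intro i hi x
      apply hY
      refine ⟨rfl, ?_⟩
      rw [fac_left, Pi.mulSingle_eq_of_ne (Ne.symm hi)]
      exact H.one_mem
    have hfac : ∀ i, ∀ x, (fac i x : Wr G n) ∈ Y := by
      intro i x
      by_cases hi : i = a
      · subst hi
        -- conjugate a factor different from `i`
        let j : Fin n := w.right⁻¹ i
        have hj : w.right j = i := Equiv.apply_symm_apply w.right i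
        have hja : j ≠ i := by
          intro h
          rw [h] at hj
          exact hwa hj
        have h1 : ∀ y : G, w * fac j y * w⁻¹ = (fac i (w.left i * y * (w.left i)⁻¹) : Wr G n) := by
          intro y
          have h2 : w * fac j y * w⁻¹ = SemidirectProduct.inl w.left *
              (SemidirectProduct.inr w.right * fac j y * (SemidirectProduct.inr w.right)⁻¹) *
              (SemidirectProduct.inl w.left)⁻¹ := by
            conv_lhs => rw [eq_inl_mul_inr w]
            rw [mul_inv_rev]
            simp only [mul_assoc]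
          rw [h2, inr_conj_fac, inl_conj_fac, hj]
        have h3 := h1 ((w.left i)⁻¹ * x * w.left i)
        have h4 : w.left i * ((w.left i)⁻¹ * x * w.left i) * (w.left i)⁻¹ = x := by
          simp [mul_assoc]
        rw [h4] at h3
        rw [← h3]
        exact Y.mul_mem (Y.mul_mem hw (hfac1 j hja _)) (Y.inv_mem hw)
      · exact hfac1 i hi x
    have hinl : ∀ f : Fin n → G, (SemidirectProduct.inl f : Wr G n) ∈ Y :=
      fun f => inl_mem_of_fac f fun i => hfac i _
    have hst : ∀ σ : Equiv.Perm (Fin n), σ a = a → (SemidirectProduct.inr σ : Wr G n) ∈ Y :=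
      fun σ hσ => hY ⟨hσ, H.one_mem⟩
    have hwr : (SemidirectProduct.inr w.right : Wr G n) ∈ Y := by
      have h1 : (SemidirectProduct.inr w.right : Wr G n)
          = (SemidirectProduct.inl w.left)⁻¹ * w :=
        (inv_mul_eq_of_eq_mul (eq_inl_mul_inr w)).symm
      rw [h1]
      exact Y.mul_mem (Y.inv_mem (hinl _)) hw
    have hinr : ∀ σ : Equiv.Perm (Fin n), (SemidirectProduct.inr σ : Wr G n) ∈ Y := by
      intro σ
      by_cases hσ : σ a = a
      · exact hst σ hσ
      · -- `σ = τ * w.right * ρ` with `τ`, `ρ` fixing `a`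
        let τ : Equiv.Perm (Fin n) := Equiv.swap (w.right a) (σ a)
        have hτ : τ a = a := Equiv.swap_apply_of_ne_of_ne (Ne.symm hwa) (Ne.symm hσ)
        let ρ : Equiv.Perm (Fin n) := w.right⁻¹ * τ⁻¹ * σ
        have hρ : ρ a = a := by
          change w.right⁻¹ (τ⁻¹ (σ a)) = a
          have h1 : τ⁻¹ (σ a) = w.right a := by
            rw [Equiv.Perm.inv_eq_iff_eq]
            exact (Equiv.swap_apply_left _ _).symm
          rw [h1]
          exact Equiv.symm_apply_apply w.right a
        have h2 : σ = τ * w.right * ρ := by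
          simp only [ρ]; group
        rw [h2, map_mul, map_mul]
        exact Y.mul_mem (Y.mul_mem (hst τ hτ) hwr) (hst ρ hρ)
    rw [eq_top_iff]
    intro v _
    rw [eq_inl_mul_inr v]
    exact Y.mul_mem (hinl _) (hinr _)

/-- The index of `{(f, σ) : σ a = a, f a ∈ X}`. -/
theorem index_ptSub (a : Fin n) (X : Subgroup G) : (ptSub a X).index = n * X.index := by
  classical
  let φ : Wr G n → Fin n × (G ⧸ X) := fun w => (w.right a, (w.left (w.right a) : G ⧸ X))
  have hφ : ∀ w w' : Wr G n, w⁻¹ * w' ∈ ptSub a X ↔ φ w = φ w' := by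
    intro w w'
    rw [mem_ptSub, Prod.ext_iff]
    have h1 : (w⁻¹ * w').left a = (w.left (w.right a))⁻¹ * w'.left (w.right a) := by
      rw [wr_mul_left, wr_inv_left, SemidirectProduct.inv_right, inv_inv]
    have h2 : (w⁻¹ * w').right a = a ↔ w.right a = w'.right a := by
      rw [wr_mul_right, SemidirectProduct.inv_right, Equiv.Perm.mul_apply,
        Equiv.Perm.inv_eq_iff_eq]
      exact eq_comm
    rw [h1, h2]
    constructor
    · rintro ⟨h3, h4⟩
      refine ⟨h3, ?_⟩
      change (w.left (w.right a) : G ⧸ X) = (w'.left (w'.right a) : G ⧸ X)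
      rw [← h3]
      exact QuotientGroup.eq.2 h4
    · rintro ⟨h3, h4⟩
      have h3' : w.right a = w'.right a := h3
      change (w.left (w.right a) : G ⧸ X) = (w'.left (w'.right a) : G ⧸ X) at h4
      rw [← h3'] at h4
      exact ⟨h3', QuotientGroup.eq.1 h4⟩
  let ψ : Wr G n ⧸ ptSub a X → Fin n × (G ⧸ X) := fun x => Quotient.liftOn' x φ (by
    intro w w' h
    rw [QuotientGroup.leftRel_apply] at h
    exact (hφ w w').1 h)
  have hψ : Function.Bijective ψ := by
    constructor
    · intro x y
      induction x using QuotientGroup.induction_on with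
      | H x =>
        induction y using QuotientGroup.induction_on with
        | H y =>
          intro h
          exact QuotientGroup.eq.2 ((hφ x y).2 h)
    · rintro ⟨k, y⟩
      obtain ⟨g, rfl⟩ := QuotientGroup.mk_surjective y
      refine ⟨((SemidirectProduct.mk (fun _ => g) (Equiv.swap a k) : Wr G n) :
        Wr G n ⧸ ptSub a X), ?_⟩
      apply Prod.ext
      · exact Equiv.swap_apply_left _ _
      · rfl
  rw [Subgroup.index, Nat.card_congr (Equiv.ofBijective ψ hψ), Nat.card_prod, Nat.card_fin]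
  rfl

/-- The homomorphism `(f, σ) ↦ f a` on the stabiliser of `a`. -/
def ptHom (a : Fin n) : ptSub a (⊤ : Subgroup G) →* G where
  toFun w := w.1.left a
  map_one' := rfl
  map_mul' := by
    rintro ⟨u, hu⟩ ⟨v, hv⟩
    change (u * v).left a = _
    rw [wr_mul_left]
    have : u.right⁻¹ a = a := by
      rw [Equiv.Perm.inv_eq_iff_eq]; exact hu.1.symm
    rw [this]

theorem ptHom_surjective (a : Fin n) : Function.Surjective (ptHom (G := G) a) := fun g =>
  ⟨⟨fac a g, fac_mem_ptSub.2 (Subgroup.mem_top _)⟩, by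
    change (fac a g : Wr G n).left a = g
    rw [fac_left, Pi.mulSingle_eq_same]⟩

theorem ptHom_ker (a : Fin n) :
    (ptHom (G := G) a).ker = (ptSub a (⊥ : Subgroup G)).subgroupOf (ptSub a ⊤) := by
  ext w
  rw [MonoidHom.mem_ker, Subgroup.mem_subgroupOf, mem_ptSub, Subgroup.mem_bot]
  exact ⟨fun h => ⟨w.2.1, h⟩, fun h => h.2⟩

end Pool.Agent.H96S.WP
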