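import Pool.Agent.H96S.WP.Diag
import Pool.Agent.H96S.WP.Pt
import Pool.Agent.H96S.WP.Fld

/-!
The fields `L^U` for the subgroups `U` of `G ≀ S_n = Gal(L/K)` of product type, of diagonal type
and over a point stabiliser.
-/

set_option autoImplicit false

namespace Pool.Agent.H96S.WP

open Pool.Agent.H391R2

variable {K L : Type} [Field K] [Field L] [Algebra K L] [FiniteDimensional K L] [IsGalois K L]
  {G : Type} [Group G] {n : ℕ} (e : Wr G n ≃* (L ≃ₐ[K] L))

theorem prod_degree (M : Subgroup G) :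
    Module.finrank K (fld e (prodSub M n)) = M.index ^ n := by
  rw [finrank_fld, index_prodSub]

theorem prod_le (hn : 0 < n) (X X' : Subgroup G) :
    fld e (prodSub X n) ≤ fld e (prodSub X' n) ↔ X' ≤ X := by
  rw [fld_le_iff, prodSub_le_iff hn]

theorem prod_sub (H : Subgroup G)
    (hH : ∀ X X' : Subgroup G, H ≤ X → X < X' → ∃ g ∈ X', ∃ x ∈ X, g * x * g⁻¹ ∉ X)
    (F : IntermediateField K L) (hF : F ≤ fld e (prodSub H n)) :
    ∃ X, H ≤ X ∧ F = fld e (prodSub X n) := by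
  obtain ⟨Y, hY, rfl⟩ := exists_of_le_fld e _ F hF
  obtain ⟨X, hX, rfl⟩ := over_prodSub H (by
    intro X X' hX hlt hle
    obtain ⟨g, hg, x, hx, hgx⟩ := hH X X' hX hlt
    exact hgx ((Subgroup.mem_normalizer_iff.1 (hle hg) x).1 hx)) Y hY
  exact ⟨X, hX, rfl⟩

theorem prod_ne_bot (hn : 0 < n) {M : Subgroup G} (hM : M ≠ ⊤) : fld e (prodSub M n) ≠ ⊥ := by
  intro h
  have h5 : fld e (prodSub M n) ≤ fld e (prodSub (⊤ : Subgroup G) n) := by
    rw [h]; exact bot_le
  rw [prod_le e hn] at h5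
  exact hM (top_le_iff.1 h5)

theorem prod_simple {M : Subgroup G} (hM : IsCoatom M) (hnn : ¬ M.Normal)
    (F : IntermediateField K L) (hF : F ≤ fld e (prodSub M n)) :
    F = ⊥ ∨ F = fld e (prodSub M n) := by
  obtain ⟨Y, hY, rfl⟩ := exists_of_le_fld e _ F hF
  obtain ⟨X, hX, rfl⟩ := over_prodSub M (interval_of_coatom hM hnn) Y hY
  rcases eq_or_lt_of_le hX with h | h
  · right; rw [h]
  · left
    rw [hM.2 X h, prodSub_top, fld_top]

theorem prod_closure {M : Subgroup G} (hM : M ≠ ⊤) (hc : M.normalCore = ⊥)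
    (F : IntermediateField K L) (hF : fld e (prodSub M n) ≤ F) (hN : Normal K F) : F = ⊤ :=
  closure_fld e _ (fun N hN hle => core_prodSub hM hc N hN hle) F hF

theorem diag_degree [Finite G] (hn : 0 < n) :
    Module.finrank K (fld e (diagSub G n)) = Nat.card G ^ (n - 1) := by
  rw [finrank_fld, index_diagSub hn]

theorem diag_ne_bot [IsSimpleGroup G] (hna : ∃ a b : G, a * b ≠ b * a) (hn : 2 ≤ n) :
    fld e (diagSub G n) ≠ ⊥ := by
  intro h
  have h5 : fld e (diagSub G n) ≤ fld e (⊤ : Subgroup (Wr G n)) := by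
    rw [h]; exact bot_le
  rw [fld_le_iff] at h5
  exact (coatom_diagSub hna hn).1 (top_le_iff.1 h5)

theorem diag_simple [IsSimpleGroup G] (hna : ∃ a b : G, a * b ≠ b * a) (hn : 2 ≤ n)
    (F : IntermediateField K L) (hF : F ≤ fld e (diagSub G n)) :
    F = ⊥ ∨ F = fld e (diagSub G n) := by
  obtain ⟨Y, hY, rfl⟩ := exists_of_le_fld e _ F hF
  rcases eq_or_lt_of_le hY with h | h
  · right; rw [h]
  · left
    rw [(coatom_diagSub hna hn).2 Y h, fld_top]

theorem diag_closure [IsSimpleGroup G] (hna : ∃ a b : G, a * b ≠ b * a) (hn : 3 ≤ n)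
    (F : IntermediateField K L) (hF : fld e (diagSub G n) ≤ F) (hN : Normal K F) : F = ⊤ :=
  closure_fld e _ (fun N hN hle => core_diagSub hna hn N hN hle) F hF

theorem diag_gal (hn : 0 < n) :
    Nonempty ((G × Equiv.Perm (Fin n)) ≃* (L ≃ₐ[fld e (diagSub G n)] L)) :=
  ⟨(diagEquiv G n hn).symm.trans (galEquiv e (diagSub G n))⟩

theorem diag_quot (hn : 0 < n) :
    ∃ F : IntermediateField (fld e (diagSub G n)) L, IsGalois (fld e (diagSub G n)) F ∧
      Nonempty (G ≃* (F ≃ₐ[fld e (diagSub G n)] F)) := by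
  obtain ⟨F, _, hF1, hF2⟩ := quotient_fld e (diagSub G n)
    ((MonoidHom.fst G (Equiv.Perm (Fin n))).comp (diagEquiv G n hn).toMonoidHom)
    (Prod.fst_surjective.comp (diagEquiv G n hn).surjective)
  exact ⟨F, hF1, hF2⟩

theorem pt_degree (a : Fin n) (X : Subgroup G) :
    Module.finrank K (fld e (ptSub a X)) = n * X.index := by
  rw [finrank_fld, index_ptSub]

theorem pt_le (a : Fin n) (X X' : Subgroup G) :
    fld e (ptSub a X) ≤ fld e (ptSub a X') ↔ X' ≤ X := by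
  rw [fld_le_iff, ptSub_le_iff]

theorem pt_sub (a : Fin n) (H : Subgroup G) (F : IntermediateField K L) :
    F ≤ fld e (ptSub a H) ↔ F = ⊥ ∨ ∃ X, H ≤ X ∧ F = fld e (ptSub a X) := by
  constructor
  · intro hF
    obtain ⟨Y, hY, rfl⟩ := exists_of_le_fld e _ F hF
    rcases over_ptSub a H Y hY with rfl | ⟨X, hX, rfl⟩
    · left; rw [fld_top]
    · right; exact ⟨X, hX, rfl⟩
  · rintro (rfl | ⟨X, hX, rfl⟩)
    · exact bot_le
    · exact (pt_le e a X H).2 hX

theorem pt_gal (a : Fin n) :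
    ∃ F : IntermediateField (fld e (ptSub a (⊤ : Subgroup G))) L,
      (∀ x : L, x ∈ F ↔ x ∈ fld e (ptSub a (⊥ : Subgroup G))) ∧
      IsGalois (fld e (ptSub a (⊤ : Subgroup G))) F ∧
      Nonempty (G ≃* (F ≃ₐ[fld e (ptSub a (⊤ : Subgroup G))] F)) := by
  obtain ⟨F', hF', h5, h6⟩ := quotient_fld e (ptSub a (⊤ : Subgroup G)) (ptHom a)
    (ptHom_surjective a)
  refine ⟨F', ?_, h5, h6⟩
  intro x
  rw [hF', mem_fld]
  constructor
  · rintro h w ⟨hw1, hw2⟩
    exact h ⟨w, hw1, Subgroup.mem_top _⟩ (Subgroup.mem_bot.1 hw2)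
  · rintro h ⟨w, hw⟩ hu
    exact h w ⟨hw.1, Subgroup.mem_bot.2 hu⟩

end Pool.Agent.H96S.WP
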