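import Pool.Agent.W200.IK.DD
import Pool.Agent.H96S.WP.Pkg

/-!
`G ≀ S_n` over the rational function field of a finite field.
-/

set_option autoImplicit false

namespace Pool.Agent.H96S.WP

open Pool.Agent.H391R2 (Wr)
open Pool.Agent.H391R2.T4 (EG RegSol SymEP symProj SolOver SolDeg regSol_iff sym_degree finite_sym)

theorem ff_wreath (G : Type) [Group G] [Finite G] (n : ℕ)
    (hn : ((Nat.card G + 2).factorial) ^ 3 ≤ n) (κ : Type) [Field κ] [Finite κ] :
    3 ≤ n ∧ ∃ (L : Type) (_ : Field L) (_ : Algebra (RatFunc κ) L) (_ : Algebra κ L)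
      (_ : IsScalarTower κ (RatFunc κ) L) (_ : FiniteDimensional (RatFunc κ) L)
      (_ : IsGalois (RatFunc κ) L) (_ : Wr G n ≃* (L ≃ₐ[RatFunc κ] L)),
      ∀ y : L, IsAlgebraic κ y → y ∈ Set.range (algebraMap κ L) := by
  have hsub : ∀ a b : (κ ≃ₐ[κ] κ), a = b := fun a b => Subsingleton.elim a b
  have hcard : Nat.card (κ ≃ₐ[κ] κ) = 1 :=
    Nat.card_eq_one_iff_unique.2 ⟨⟨hsub⟩, ⟨1⟩⟩
  have hbd : Pool.Agent.W200.IK.bd (Nat.card G) (Nat.card (κ ≃ₐ[κ] κ)) ≤ n := by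
    rw [hcard]
    exact (Pool.Agent.W200.IK.bd_one_le _ Nat.card_pos).trans hn
  obtain ⟨hn3, F, i1, i2, i3, i4, i5, i6, i7, i8, γ, hγ, hreg⟩ :=
    Pool.Agent.W200.IK.reg_wreath_fin_bd κ κ G 1 n hbd
  let e : EG (1 : (κ ≃ₐ[κ] κ) →* MulAut G) n ≃* Wr G n :=
    { toFun := fun z => z.left
      invFun := fun x => ⟨x, 1⟩
      left_inv := fun z => SemidirectProduct.ext rfl (hsub _ _)
      right_inv := fun x => rfl
      map_mul' := fun a b => by
        change a.left * _ = a.left * b.left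
        congr 1 }
  have h34 : i4 = i3 := Algebra.algebra_ext i4 i3 (fun x =>
    @IsScalarTower.algebraMap_apply κ κ F _ _ _ _ i3 i4 i6 x)
  subst h34
  exact ⟨hn3, F, i1, i2, i4, i5, i7, i8, (γ.trans e).symm, hreg⟩

end Pool.Agent.H96S.WP
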