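import Pool.Agent.H391R2.WrGrp

/-!
Subgroups of the wreath products `G ≀ S_n`: intervals of product type, maximal subgroups of
diagonal type, intervals above the stabiliser of a point.
-/

set_option autoImplicit false

namespace Pool.Agent.H96S.WP

open Pool.Agent.H391R2

variable {G : Type} [Group G] {n : ℕ}

theorem inl_left (f : Fin n → G) : (SemidirectProduct.inl f : Wr G n).left = f := rfl

/-- The subgroup `M ≀ S_n` of `G ≀ S_n`. -/
def prodSub (M : Subgroup G) (n : ℕ) : Subgroup (Wr G n) where
  carrier := {w | ∀ i, w.left i ∈ M}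
  mul_mem' := by
    intro a b ha hb i
    rw [wr_mul_left]
    exact M.mul_mem (ha i) (hb _)
  one_mem' := fun i => M.one_mem
  inv_mem' := by
    intro a ha i
    rw [wr_inv_left]
    exact M.inv_mem (ha _)

theorem mem_prodSub {M : Subgroup G} {w : Wr G n} : w ∈ prodSub M n ↔ ∀ i, w.left i ∈ M := Iff.rfl

theorem inr_mem_prodSub (M : Subgroup G) (σ : Equiv.Perm (Fin n)) :
    (SemidirectProduct.inr σ : Wr G n) ∈ prodSub M n := fun _ => M.one_mem

theorem prodSub_mono {M N : Subgroup G} (h : M ≤ N) : prodSub M n ≤ prodSub N n :=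
  fun _ hw i => h (hw i)

/-- The embedding of `G` as the `i`-th factor. -/
def fac (i : Fin n) : G →* Wr G n :=
  SemidirectProduct.inl.comp (MonoidHom.mulSingle (fun _ : Fin n => G) i)

theorem fac_apply (i : Fin n) (x : G) :
    fac i x = (SemidirectProduct.inl (Pi.mulSingle i x) : Wr G n) := rfl

theorem fac_left (i : Fin n) (x : G) : (fac i x : Wr G n).left = Pi.mulSingle i x := rfl

theorem fac_right (i : Fin n) (x : G) : (fac i x : Wr G n).right = 1 := rfl

theorem fac_mem_prodSub {M : Subgroup G} {i : Fin n} {x : G} :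
    (fac i x : Wr G n) ∈ prodSub M n ↔ x ∈ M := by
  constructor
  · intro h
    have := h i
    rwa [fac_left, Pi.mulSingle_eq_same] at this
  · intro h j
    rw [fac_left]
    by_cases hj : j = i
    · subst hj; rwa [Pi.mulSingle_eq_same]
    · rw [Pi.mulSingle_eq_of_ne hj]; exact M.one_mem

theorem eq_inl_mul_inr (w : Wr G n) :
    w = SemidirectProduct.inl w.left * SemidirectProduct.inr w.right :=
  (SemidirectProduct.inl_left_mul_inr_right w).symm

/-- conjugation of a factor by an element of the base group -/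
theorem inl_conj_fac (f : Fin n → G) (i : Fin n) (x : G) :
    (SemidirectProduct.inl f : Wr G n) * fac i x * (SemidirectProduct.inl f)⁻¹
      = fac i (f i * x * (f i)⁻¹) := by
  rw [fac_apply, fac_apply, ← map_inv, ← map_mul, ← map_mul]
  congr 1
  funext j
  by_cases hj : j = i
  · subst hj; simp
  · simp [Pi.mulSingle_eq_of_ne hj]

/-- conjugation of a factor by a permutation -/
theorem inr_conj_fac (σ : Equiv.Perm (Fin n)) (i : Fin n) (x : G) :
    (SemidirectProduct.inr σ : Wr G n) * fac i x * (SemidirectProduct.inr σ)⁻¹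
      = fac (σ i) x := by
  rw [fac_apply, fac_apply, ← map_inv, ← SemidirectProduct.inl_aut]
  congr 1
  funext j
  change (Pi.mulSingle i x : Fin n → G) (σ⁻¹ j) = _
  by_cases hj : j = σ i
  · subst hj; simp
  · rw [Pi.mulSingle_eq_of_ne hj, Pi.mulSingle_eq_of_ne]
    intro h
    apply hj
    rw [← h]; simp

/-- A subgroup which contains all permutations: membership is decided by the base group. -/
theorem mem_of_inl {Y : Subgroup (Wr G n)} (hr : ∀ σ, (SemidirectProduct.inr σ : Wr G n) ∈ Y)
    (w : Wr G n) : w ∈ Y ↔ (SemidirectProduct.inl w.left : Wr G n) ∈ Y := by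
  constructor
  · intro h
    have h1 : (SemidirectProduct.inl w.left : Wr G n)
        = w * (SemidirectProduct.inr w.right)⁻¹ :=
      eq_mul_inv_of_mul_eq (SemidirectProduct.inl_left_mul_inr_right w)
    rw [h1]
    exact Y.mul_mem h (Y.inv_mem (hr _))
  · intro h
    rw [eq_inl_mul_inr w]
    exact Y.mul_mem h (hr _)

/-- If all `mulSingle i (f i)` are in `Y` then `inl f` is in `Y`. -/
theorem inl_mem_of_fac {Y : Subgroup (Wr G n)} (f : Fin n → G)
    (h : ∀ i, (fac i (f i) : Wr G n) ∈ Y) : (SemidirectProduct.inl f : Wr G n) ∈ Y := by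
  classical
  have := Subgroup.pi_mem_of_mulSingle_mem
    (H := Y.comap (SemidirectProduct.inl : (Fin n → G) →* Wr G n)) f (fun i => h i)
  exact this

/-- **Intervals of product type.** If no two different members `X < X'` of the interval `[H, G]`
are such that `X` is normal in `X'`, then the subgroups of `G ≀ S_n` containing `H ≀ S_n` are the
`X ≀ S_n`, `H ≤ X ≤ G`. -/
theorem over_prodSub (H : Subgroup G)
    (hn : ∀ X X' : Subgroup G, H ≤ X → X < X' → ¬ X' ≤ Subgroup.normalizer (X : Set G))
    (Y : Subgroup (Wr G n)) (hY : prodSub H n ≤ Y) :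
    ∃ X : Subgroup G, H ≤ X ∧ Y = prodSub X n := by
  classical
  rcases Nat.eq_zero_or_pos n with h0 | h0
  · subst h0
    refine ⟨H, le_rfl, ?_⟩
    apply le_antisymm _ hY
    intro w _ i
    exact i.elim0
  let i0 : Fin n := ⟨0, h0⟩
  have hr : ∀ σ, (SemidirectProduct.inr σ : Wr G n) ∈ Y := fun σ => hY (inr_mem_prodSub H σ)
  -- the intersection with the first factor
  let X₀ : Subgroup G := Y.comap (fac i0)
  -- the projection to the first factor
  let X : Subgroup G :=
    (Y.comap (SemidirectProduct.inl : (Fin n → G) →* Wr G n)).map (Pi.evalMonoidHom _ i0)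
  have hHX₀ : H ≤ X₀ := fun x hx => hY (fac_mem_prodSub.2 hx)
  have hfac : ∀ i x, x ∈ X₀ → (fac i x : Wr G n) ∈ Y := by
    intro i x hx
    have h1 := inr_conj_fac (G := G) (Equiv.swap i0 i) i0 x
    rw [Equiv.swap_apply_left] at h1
    rw [← h1]
    exact Y.mul_mem (Y.mul_mem (hr _) hx) (Y.inv_mem (hr _))
  have hX₀X : X₀ ≤ X := by
    intro x hx
    refine ⟨Pi.mulSingle i0 x, hx, ?_⟩
    simp
  have hnorm : X ≤ Subgroup.normalizer (X₀ : Set G) := by
    rintro x ⟨f, hf, rfl⟩
    have key : ∀ (f : Fin n → G), (SemidirectProduct.inl f : Wr G n) ∈ Y →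
        ∀ y ∈ X₀, f i0 * y * (f i0)⁻¹ ∈ X₀ := by
      intro f hf y hy
      change (fac i0 (f i0 * y * (f i0)⁻¹) : Wr G n) ∈ Y
      rw [← inl_conj_fac]
      exact Y.mul_mem (Y.mul_mem hf hy) (Y.inv_mem hf)
    rw [Subgroup.mem_normalizer_iff]
    intro y
    constructor
    · exact key f hf y
    · intro hy
      have h1 := key f⁻¹ (by rw [map_inv]; exact Y.inv_mem hf) _ hy
      simpa [mul_assoc] using h1
  have hXX : X₀ = X := by
    by_contra hne
    exact hn X₀ X hHX₀ (lt_of_le_of_ne hX₀X hne) hnorm
  refine ⟨X₀, hHX₀, ?_⟩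
  apply le_antisymm
  · intro w hw i
    rw [hXX]
    -- move the coordinate `i` to `i0`
    have h1 : (SemidirectProduct.inr (Equiv.swap i0 i) : Wr G n) * SemidirectProduct.inl w.left *
        (SemidirectProduct.inr (Equiv.swap i0 i))⁻¹ ∈ Y :=
      Y.mul_mem (Y.mul_mem (hr _) ((mem_of_inl hr w).1 hw)) (Y.inv_mem (hr _))
    rw [← map_inv, ← SemidirectProduct.inl_aut] at h1
    refine ⟨_, h1, ?_⟩
    change w.left ((Equiv.swap i0 i)⁻¹ i0) = w.left i
    simp
  · intro w hw
    rw [mem_of_inl hr]
    exact inl_mem_of_fac _ fun i => hfac i _ (hw i)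

/-- The map `X ↦ X ≀ S_n` reflects the order. -/
theorem prodSub_le_iff (hn : 0 < n) {X X' : Subgroup G} :
    prodSub X n ≤ prodSub X' n ↔ X ≤ X' := by
  constructor
  · intro h x hx
    exact fac_mem_prodSub.1 (h (fac_mem_prodSub (i := ⟨0, hn⟩).2 hx))
  · exact prodSub_mono

theorem prodSub_top : prodSub (⊤ : Subgroup G) n = ⊤ := by
  rw [eq_top_iff]
  intro w _ i
  exact Subgroup.mem_top _

/-- The index of `M ≀ S_n` in `G ≀ S_n`. -/
theorem index_prodSub (M : Subgroup G) : (prodSub M n).index = M.index ^ n := by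
  classical
  let φ : Wr G n → (Fin n → G ⧸ M) := fun w i => (w.left i : G ⧸ M)
  have hφ : ∀ w w' : Wr G n, w⁻¹ * w' ∈ prodSub M n ↔ φ w = φ w' := by
    intro w w'
    rw [mem_prodSub, funext_iff]
    have h1 : ∀ i, (w⁻¹ * w').left i = (w.left (w.right i))⁻¹ * w'.left (w.right i) := by
      intro i
      rw [wr_mul_left, wr_inv_left, SemidirectProduct.inv_right, inv_inv]
    simp only [h1]
    constructor
    · intro h i
      have := h (w.right⁻¹ i)
      have h2 : w.right (w.right⁻¹ i) = i := Equiv.apply_symm_apply w.right i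
      rw [h2] at this
      exact QuotientGroup.eq.2 this
    · intro h i
      exact QuotientGroup.eq.1 (h (w.right i))
  let ψ : Wr G n ⧸ prodSub M n → (Fin n → G ⧸ M) := fun x => Quotient.liftOn' x φ (by
    intro w w' h
    rw [QuotientGroup.leftRel_apply] at h
    exact (hφ w w').1 h)
  have hψ : Function.Bijective ψ := by
    constructor
    · intro x y
      induction x using QuotientGroup.induction_on with
      | H x =>
        induction y using QuotientGroup.induction_on with
        | H y =>
          intro h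
          exact QuotientGroup.eq.2 ((hφ x y).2 h)
    · intro y
      choose g hg using fun i => QuotientGroup.mk_surjective (y i)
      refine ⟨((SemidirectProduct.inl g : Wr G n) : Wr G n ⧸ prodSub M n), ?_⟩
      funext i
      exact hg i
  rw [Subgroup.index, Nat.card_congr (Equiv.ofBijective ψ hψ), Nat.card_fun, Nat.card_fin]
  rfl

/-- Coordinates of a conjugate by an element of a factor. -/
theorem conj_fac_left (w : Wr G n) (i j : Fin n) (g : G) :
    (fac i g * w * (fac i g)⁻¹).left j
      = (Pi.mulSingle i g : Fin n → G) j * w.left j *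
        (Pi.mulSingle i g⁻¹ : Fin n → G) (w.right⁻¹ j) := by
  have h1 : (fac i g : Wr G n)⁻¹ = fac i g⁻¹ := (map_inv _ _).symm
  rw [h1, wr_mul_left, wr_mul_left, wr_mul_right, fac_right, fac_left, fac_left, one_mul, inv_one]
  rfl

/-- If `M ≠ G` has trivial core, so has `M ≀ S_n`. -/
theorem core_prodSub {M : Subgroup G} (hM : M ≠ ⊤) (hc : M.normalCore = ⊥)
    (N : Subgroup (Wr G n)) (hN : N.Normal) (hle : N ≤ prodSub M n) : N = ⊥ := by
  classical
  rw [eq_bot_iff]
  intro w hw
  have hconj : ∀ i g j, (Pi.mulSingle i g : Fin n → G) j * w.left j *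
        (Pi.mulSingle i g⁻¹ : Fin n → G) (w.right⁻¹ j) ∈ M := by
    intro i g j
    rw [← conj_fac_left]
    exact hle (hN.conj_mem w hw _) j
  have hr : w.right = 1 := by
    by_contra hne
    obtain ⟨i, hi⟩ : ∃ i, w.right⁻¹ i ≠ i := by
      by_contra hcon
      push Not at hcon
      apply hne
      have : w.right⁻¹ = 1 := Equiv.ext hcon
      rwa [inv_eq_one] at this
    apply hM
    rw [eq_top_iff]
    intro g _
    have h1 := hconj i g i
    rw [Pi.mulSingle_eq_same, Pi.mulSingle_eq_of_ne hi, mul_one] at h1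
    have h2 : w.left i ∈ M := hle hw i
    exact (M.mul_mem_cancel_right h2).1 h1
  have hl : ∀ i, w.left i = 1 := by
    intro i
    have : w.left i ∈ M.normalCore := by
      intro g
      have h1 := hconj i g i
      have h2 : w.right⁻¹ i = i := by rw [hr]; rfl
      rw [h2, Pi.mulSingle_eq_same, Pi.mulSingle_eq_same] at h1
      exact h1
    rw [hc] at this
    exact Subgroup.mem_bot.1 this
  rw [Subgroup.mem_bot]
  refine SemidirectProduct.ext ?_ hr
  funext i
  exact hl i

/-- A maximal subgroup which is not normal satisfies the condition on intervals. -/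
theorem interval_of_coatom {M : Subgroup G} (hM : IsCoatom M) (hnn : ¬ M.Normal) :
    ∀ X X' : Subgroup G, M ≤ X → X < X' → ¬ X' ≤ Subgroup.normalizer (X : Set G) := by
  intro X X' hX hlt hle
  have h1 : X = M := by
    rcases eq_or_lt_of_le hX with h | h
    · exact h.symm
    · have := hM.2 X h
      rw [this] at hlt
      exact absurd hlt not_top_lt
  rw [h1] at hlt hle
  have h2 : X' = ⊤ := hM.2 X' hlt
  rw [h2, top_le_iff] at hle
  exact hnn (Subgroup.normalizer_eq_top_iff.1 hle)

/-- A finite nonabelian simple group has a maximal subgroup which is not normal and has trivial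
core. -/
theorem simple_coatom (S : Type) [Group S] [Finite S] [IsSimpleGroup S]
    (hna : ∃ a b : S, a * b ≠ b * a) :
    ∃ M : Subgroup S, IsCoatom M ∧ ¬ M.Normal ∧ M.normalCore = ⊥ := by
  obtain ⟨M, hM⟩ : ∃ M : Subgroup S, IsCoatom M := by
    have := (IsCoatomic.eq_top_or_exists_le_coatom (⊥ : Subgroup S))
    rcases this with h | ⟨M, hM, _⟩
    · exact absurd h bot_ne_top
    · exact ⟨M, hM⟩
  have hnn : ¬ M.Normal := by
    intro hN
    have hbot : M = ⊥ := by
      rcases hN.eq_bot_or_eq_top with h | h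
      · exact h
      · exact absurd h hM.1
    rw [hbot] at hM
    obtain ⟨a, b, hab⟩ := hna
    apply hab
    by_cases ha : a = 1
    · rw [ha]; simp
    have h1 : Subgroup.zpowers a = ⊤ := by
      apply hM.2
      rw [bot_lt_iff_ne_bot]
      intro h
      rw [Subgroup.zpowers_eq_bot] at h
      exact ha h
    have h2 : b ∈ Subgroup.zpowers a := by rw [h1]; exact Subgroup.mem_top _
    obtain ⟨k, rfl⟩ := Subgroup.mem_zpowers_iff.1 h2
    exact (Commute.refl a).zpow_right k
  refine ⟨M, hM, hnn, ?_⟩
  rcases (Subgroup.normalCore_normal M).eq_bot_or_eq_top with h | h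
  · exact h
  · exfalso
    apply hM.1
    rw [eq_top_iff, ← h]
    exact Subgroup.normalCore_le M

end Pool.Agent.H96S.WP
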