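import Pool.Agent.H391R2.T4.Sym
import Pool.Agent.H96S.WP.Diag
import Pool.Agent.H96S.WP.Fld

/-!
Subgroups of the symmetric fibre powers `SymEP α n` of an epimorphism `α : E → Γ`: maximal
subgroups of product type and of diagonal type.
-/

set_option autoImplicit false

namespace Pool.Agent.H96S.WP

open Pool.Agent.H391R2 Pool.Agent.H391R2.T4

variable {E Γ : Type} [Group E] [Group Γ] {α : E →* Γ} {n : ℕ}

/-- The elements of `SymEP α n` given by the permutations. -/
def sPerm (α : E →* Γ) (σ : Equiv.Perm (Fin n)) : SymEP α n :=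
  ⟨(SemidirectProduct.inr σ, 1), fun _ => map_one α⟩

/-- The elements of `SymEP α n` given by tuples in a fibre of `α`. -/
def sTup (f : Fin n → E) (ρ : Γ) (h : ∀ i, α (f i) = ρ) : SymEP α n :=
  ⟨(SemidirectProduct.inl f, ρ), h⟩

/-- The diagonal elements of `SymEP α n`. -/
def sConst (α : E →* Γ) (n : ℕ) (x : E) : SymEP α n := sTup (fun _ => x) (α x) fun _ => rfl

/-- The factors of the kernel. -/
def sFac (α : E →* Γ) (i : Fin n) : α.ker →* SymEP α n where
  toFun k := ⟨(fac i k, 1), fun j => by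
    change α ((Pi.mulSingle i (k : E) : Fin n → E) j) = 1
    by_cases hj : j = i
    · subst hj; rw [Pi.mulSingle_eq_same]; exact k.2
    · rw [Pi.mulSingle_eq_of_ne hj]; exact map_one α⟩
  map_one' := by
    apply Subtype.ext
    exact Prod.ext (map_one (fac i)) rfl
  map_mul' a b := by
    apply Subtype.ext
    exact Prod.ext (map_mul (fac i) (a : E) (b : E)) (mul_one _).symm

theorem sym_ext {a b : SymEP α n} (h1 : ∀ i, a.1.1.left i = b.1.1.left i)
    (h2 : a.1.1.right = b.1.1.right) (h3 : a.1.2 = b.1.2) : a = b := by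
  apply Subtype.ext
  refine Prod.ext ?_ h3
  exact SemidirectProduct.ext (funext h1) h2

theorem sFac_left (i j : Fin n) (k : α.ker) :
    (sFac α i k).1.1.left j = (Pi.mulSingle i (k : E) : Fin n → E) j := rfl

theorem sym_mul_left (a b : SymEP α n) (i : Fin n) :
    (a * b).1.1.left i = a.1.1.left i * b.1.1.left (a.1.1.right⁻¹ i) := wr_mul_left _ _ _

theorem sym_inv_left (a : SymEP α n) (i : Fin n) :
    (a⁻¹).1.1.left i = (a.1.1.left (a.1.1.right i))⁻¹ := wr_inv_left _ _

theorem sym_mul_right (a b : SymEP α n) : (a * b).1.1.right = a.1.1.right * b.1.1.right := rfl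

theorem sym_inv_right (a : SymEP α n) : (a⁻¹).1.1.right = (a.1.1.right)⁻¹ := rfl

/-- Removing the permutation. -/
theorem sTup_eq (z : SymEP α n) :
    sTup z.1.1.left z.1.2 z.2 = z * (sPerm α z.1.1.right)⁻¹ := by
  rw [eq_mul_inv_iff_mul_eq]
  apply sym_ext
  · intro i
    rw [sym_mul_left]
    exact mul_one _
  · rw [sym_mul_right]
    exact one_mul _
  · exact mul_one _

/-- The conjugate of a tuple by a permutation. -/
theorem sPerm_conj (σ : Equiv.Perm (Fin n)) (f : Fin n → E) (ρ : Γ) (h : ∀ i, α (f i) = ρ) :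
    sPerm α σ * sTup f ρ h * (sPerm α σ)⁻¹ = sTup (fun i => f (σ⁻¹ i)) ρ fun i => h _ := by
  rw [mul_inv_eq_iff_eq_mul]
  apply sym_ext
  · intro i
    rw [sym_mul_left, sym_mul_left]
    change 1 * f (σ⁻¹ i) = f (σ⁻¹ i) * 1
    rw [one_mul, mul_one]
  · rw [sym_mul_right, sym_mul_right]
    change σ * 1 = 1 * σ
    rw [one_mul, mul_one]
  · change 1 * ρ = ρ * 1
    rw [one_mul, mul_one]

/-- The conjugate of a factor by a permutation. -/
theorem sPerm_conj_fac (σ : Equiv.Perm (Fin n)) (i : Fin n) (k : α.ker) :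
    sPerm α σ * sFac α i k * (sPerm α σ)⁻¹ = sFac α (σ i) k := by
  apply Subtype.ext
  apply Prod.ext
  · exact inr_conj_fac σ i (k : E)
  · change (1 : Γ) * 1 * 1⁻¹ = 1
    simp

/-- The conjugate of a factor by a tuple. -/
theorem sTup_conj_fac (f : Fin n → E) (ρ : Γ) (h : ∀ i, α (f i) = ρ) (i : Fin n) (k : α.ker) :
    sTup f ρ h * sFac α i k * (sTup f ρ h)⁻¹ =
      sFac α i ⟨f i * k * (f i)⁻¹, (inferInstance : α.ker.Normal).conj_mem _ k.2 _⟩ := by
  apply Subtype.ext
  apply Prod.ext
  · exact inl_conj_fac f i (k : E)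
  · change ρ * 1 * ρ⁻¹ = 1
    simp

/-- If all factors of a tuple in the kernel are in `Y`, so is the tuple. -/
theorem sTup_mem_of_fac {Y : Subgroup (SymEP α n)} (f : Fin n → E) (h : ∀ i, α (f i) = 1)
    (hY : ∀ i, sFac α i ⟨f i, h i⟩ ∈ Y) : sTup f 1 h ∈ Y := by
  classical
  -- the homomorphism from the power of the kernel
  let φ : (Fin n → α.ker) →* SymEP α n :=
    { toFun := fun g => sTup (fun i => (g i : E)) 1 fun i => (g i).2
      map_one' := rfl
      map_mul' := fun a b => by
        apply sym_ext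
        · intro i; rfl
        · rfl
        · exact (mul_one _).symm }
  have := Subgroup.pi_mem_of_mulSingle_mem (H := Y.comap φ) (fun i => (⟨f i, h i⟩ : α.ker)) (by
    intro i
    have h1 : φ (Pi.mulSingle i ⟨f i, h i⟩) = sFac α i ⟨f i, h i⟩ := by
      apply sym_ext
      · intro j
        change ((Pi.mulSingle i (⟨f i, h i⟩ : α.ker) : Fin n → α.ker) j : E) = _
        rw [sFac_left]
        by_cases hj : j = i
        · subst hj; rw [Pi.mulSingle_eq_same, Pi.mulSingle_eq_same]
        · rw [Pi.mulSingle_eq_of_ne hj, Pi.mulSingle_eq_of_ne hj]; rfl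
      · rfl
      · rfl
    change φ (Pi.mulSingle i ⟨f i, h i⟩) ∈ Y
    rw [h1]
    exact hY i)
  exact this

/-- The subgroup of product type. -/
def symU (α : E →* Γ) (n : ℕ) (M : Subgroup E) : Subgroup (SymEP α n) where
  carrier := {z | ∀ i, z.1.1.left i ∈ M}
  mul_mem' := by
    intro a b ha hb i
    rw [sym_mul_left]
    exact M.mul_mem (ha i) (hb _)
  one_mem' := fun _ => M.one_mem
  inv_mem' := by
    intro a ha i
    rw [sym_inv_left]
    exact M.inv_mem (ha _)

theorem mem_symU {M : Subgroup E} {z : SymEP α n} : z ∈ symU α n M ↔ ∀ i, z.1.1.left i ∈ M :=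
  Iff.rfl

/-- **Maximal subgroups of product type.** -/
theorem coatom_symU {M : Subgroup E} (hM : IsCoatom M) (hker : ¬ α.ker ≤ M)
    (hnn : ¬ (M ⊓ α.ker).Normal) (hn : 0 < n) : IsCoatom (symU α n M) := by
  classical
  let i0 : Fin n := ⟨0, hn⟩
  have hsup : M ⊔ α.ker = ⊤ := by
    apply hM.2
    rw [left_lt_sup]
    exact hker
  constructor
  · intro h
    obtain ⟨k, hk, hkM⟩ := SetLike.not_le_iff_exists.1 hker
    have h1 : sFac α i0 ⟨k, hk⟩ ∈ symU α n M := by rw [h]; exact Subgroup.mem_top _
    have h2 := h1 i0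
    rw [sFac_left, Pi.mulSingle_eq_same] at h2
    exact hkM h2
  · intro Y hlt
    have hr : ∀ σ, sPerm α σ ∈ Y := fun σ => hlt.le (fun _ => M.one_mem)
    have hcM : ∀ m ∈ M, sConst α n m ∈ Y := fun m hm => hlt.le (fun _ => hm)
    -- the subgroup `X₀` of the kernel
    let X₀ : Subgroup E := (Y.comap (sFac α i0)).map α.ker.subtype
    have hX₀ : ∀ k (hk : k ∈ α.ker), k ∈ X₀ ↔ sFac α i0 ⟨k, hk⟩ ∈ Y := by
      intro k hk
      constructor
      · rintro ⟨k', hk', rfl⟩
        exact hk'
      · intro h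
        exact ⟨⟨k, hk⟩, h, rfl⟩
    have hX₀le : X₀ ≤ α.ker := by
      rintro _ ⟨k', _, rfl⟩
      exact k'.2
    have hfac : ∀ i k (hk : k ∈ α.ker), k ∈ X₀ → sFac α i ⟨k, hk⟩ ∈ Y := by
      intro i k hk h
      have h1 := sPerm_conj_fac (Equiv.swap i0 i) i0 (⟨k, hk⟩ : α.ker)
      rw [Equiv.swap_apply_left] at h1
      rw [← h1]
      exact Y.mul_mem (Y.mul_mem (hr _) ((hX₀ k hk).1 h)) (Y.inv_mem (hr _))
    -- the subgroup `X` of first coordinates
    let X : Subgroup E :=
      { carrier := {x | ∃ (f : Fin n → E) (ρ : Γ) (h : ∀ i, α (f i) = ρ),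
          sTup f ρ h ∈ Y ∧ f i0 = x}
        mul_mem' := by
          rintro _ _ ⟨f, ρ, h, hf, rfl⟩ ⟨g, τ, h', hg, rfl⟩
          refine ⟨f * g, ρ * τ, fun i => by rw [Pi.mul_apply, map_mul, h, h'], ?_, rfl⟩
          have h1 := Y.mul_mem hf hg
          have h2 : sTup f ρ h * sTup g τ h' =
              sTup (f * g) (ρ * τ) (fun i => by rw [Pi.mul_apply, map_mul, h, h']) := by
            apply sym_ext
            · intro i; rfl
            · rfl
            · rfl
          rwa [h2] at h1
        one_mem' := ⟨1, 1, fun _ => map_one α, Y.one_mem, rfl⟩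
        inv_mem' := by
          rintro _ ⟨f, ρ, h, hf, rfl⟩
          refine ⟨f⁻¹, ρ⁻¹, fun i => by rw [Pi.inv_apply, map_inv, h], ?_, rfl⟩
          have h1 := Y.inv_mem hf
          have h2 : (sTup f ρ h)⁻¹ =
              sTup f⁻¹ ρ⁻¹ (fun i => by rw [Pi.inv_apply, map_inv, h]) := by
            apply sym_ext
            · intro i; rfl
            · rfl
            · rfl
          rwa [h2] at h1 }
    have hMX : M ≤ X := fun m hm => ⟨fun _ => m, α m, fun _ => rfl, hcM m hm, rfl⟩
    have htup : ∀ z ∈ Y, sTup z.1.1.left z.1.2 z.2 ∈ Y := by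
      intro z hz
      rw [sTup_eq]
      exact Y.mul_mem hz (Y.inv_mem (hr _))
    have hcoord : ∀ z ∈ Y, ∀ i, z.1.1.left i ∈ X := by
      intro z hz i
      have h1 := sPerm_conj (α := α) (Equiv.swap i0 i) z.1.1.left z.1.2 z.2
      have h2 : sPerm α (Equiv.swap i0 i) * sTup z.1.1.left z.1.2 z.2 *
          (sPerm α (Equiv.swap i0 i))⁻¹ ∈ Y :=
        Y.mul_mem (Y.mul_mem (hr _) (htup z hz)) (Y.inv_mem (hr _))
      rw [h1] at h2
      refine ⟨_, _, _, h2, ?_⟩
      change z.1.1.left ((Equiv.swap i0 i)⁻¹ i0) = z.1.1.left i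
      rw [Equiv.swap_inv, Equiv.swap_apply_left]
    have hXtop : X = ⊤ := by
      rcases eq_or_lt_of_le hMX with h | h
      · exfalso
        apply not_le_of_gt hlt
        intro z hz i
        rw [h]
        exact hcoord z hz i
      · exact hM.2 X h
    -- `X₀` is normal
    have hconj : ∀ x k, k ∈ X₀ → x * k * x⁻¹ ∈ X₀ := by
      intro x k hk
      have hx : x ∈ X := by rw [hXtop]; exact Subgroup.mem_top _
      obtain ⟨f, ρ, h, hf, rfl⟩ := hx
      have hk' : k ∈ α.ker := hX₀le hk
      rw [hX₀ _ ((inferInstance : α.ker.Normal).conj_mem _ hk' _),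
        ← sTup_conj_fac f ρ h i0 ⟨k, hk'⟩]
      exact Y.mul_mem (Y.mul_mem hf ((hX₀ k hk').1 hk)) (Y.inv_mem hf)
    have hX₀n : X₀.Normal := ⟨fun k hk x => hconj x k hk⟩
    have hMk : M ⊓ α.ker ≤ X₀ := by
      rintro k ⟨hkM, hk⟩
      rw [hX₀ k hk]
      apply hlt.le
      intro j
      rw [sFac_left]
      by_cases hj : j = i0
      · subst hj; rw [Pi.mulSingle_eq_same]; exact hkM
      · rw [Pi.mulSingle_eq_of_ne hj]; exact M.one_mem
    have hX₀M : ¬ X₀ ≤ M := by
      intro h
      apply hnn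
      have h1 : M ⊓ α.ker = X₀ := le_antisymm hMk (le_inf h hX₀le)
      rw [h1]
      exact hX₀n
    have hsup2 : M ⊔ X₀ = ⊤ := by
      apply hM.2
      rw [left_lt_sup]
      exact hX₀M
    have hX₀ker : α.ker ≤ X₀ := by
      intro k hk
      have h1 : k ∈ M ⊔ X₀ := by rw [hsup2]; exact Subgroup.mem_top _
      obtain ⟨m, hm, x, hx, rfl⟩ := Subgroup.mem_sup_of_normal_right.1 h1
      have h2 : m ∈ α.ker := by
        have := α.ker.mul_mem hk (α.ker.inv_mem (hX₀le hx))
        simpa using this
      exact X₀.mul_mem (hMk ⟨hm, h2⟩) hx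
    -- all of `SymEP`
    rw [eq_top_iff]
    intro z _
    -- an element of `M` over `z.2`
    obtain ⟨m, hm, hmz⟩ : ∃ m ∈ M, α m = z.1.2 := by
      have h1 : z.1.1.left i0 ∈ M ⊔ α.ker := by rw [hsup]; exact Subgroup.mem_top _
      obtain ⟨m, hm, k, hk, hmk⟩ := Subgroup.mem_sup_of_normal_right.1 h1
      refine ⟨m, hm, ?_⟩
      have h2 := z.2 i0
      rw [← hmk, map_mul, MonoidHom.mem_ker.1 hk, mul_one] at h2
      exact h2
    have hk1 : ∀ i, α (z.1.1.left i * m⁻¹) = 1 := by
      intro i
      rw [map_mul, map_inv, hmz]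
      have h2 := z.2 i
      rw [h2, mul_inv_cancel]
    have h3 : sTup (fun i => z.1.1.left i * m⁻¹) 1 hk1 ∈ Y :=
      sTup_mem_of_fac _ hk1 fun i => hfac i _ _ (hX₀ker (hk1 i))
    have h4 : z = sTup (fun i => z.1.1.left i * m⁻¹) 1 hk1 * sConst α n m *
        sPerm α z.1.1.right := by
      apply sym_ext
      · intro i
        rw [sym_mul_left, sym_mul_left]
        change _ = z.1.1.left i * m⁻¹ * m * 1
        simp
      · change _ = 1 * 1 * z.1.1.right
        simp
      · change _ = 1 * α m * 1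
        rw [one_mul, mul_one, hmz]
    rw [h4]
    exact Y.mul_mem (Y.mul_mem h3 (hcM m hm)) (hr _)

/-- The index of the subgroup of product type. -/
theorem index_symU {M : Subgroup E} (hsup : M ⊔ α.ker = ⊤) :
    (symU α n M).index = M.index ^ n := by
  classical
  let φ : SymEP α n → (Fin n → E ⧸ M) := fun w i => (w.1.1.left i : E ⧸ M)
  have hφ : ∀ w w' : SymEP α n, w⁻¹ * w' ∈ symU α n M ↔ φ w = φ w' := by
    intro w w'
    rw [mem_symU, funext_iff]
    have h1 : ∀ i, (w⁻¹ * w').1.1.left i =
        (w.1.1.left (w.1.1.right i))⁻¹ * w'.1.1.left (w.1.1.right i) := by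
      intro i
      rw [sym_mul_left, sym_inv_left, sym_inv_right, inv_inv]
    simp only [h1]
    constructor
    · intro h i
      have := h (w.1.1.right⁻¹ i)
      have h2 : w.1.1.right (w.1.1.right⁻¹ i) = i := Equiv.apply_symm_apply w.1.1.right i
      rw [h2] at this
      exact QuotientGroup.eq.2 this
    · intro h i
      exact QuotientGroup.eq.1 (h (w.1.1.right i))
  let ψ : SymEP α n ⧸ symU α n M → (Fin n → E ⧸ M) := fun x => Quotient.liftOn' x φ (by
    intro w w' h
    rw [QuotientGroup.leftRel_apply] at h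
    exact (hφ w w').1 h)
  have hψ : Function.Bijective ψ := by
    constructor
    · intro x y
      induction x using QuotientGroup.induction_on with
      | H x =>
        induction y using QuotientGroup.induction_on with
        | H y =>
          intro h
          exact QuotientGroup.eq.2 ((hφ x y).2 h)
    · intro y
      have h1 : ∀ i, ∃ k ∈ α.ker, (k : E ⧸ M) = y i := by
        intro i
        obtain ⟨g, hg⟩ := QuotientGroup.mk_surjective (y i)
        have h2 : g ∈ α.ker ⊔ M := by rw [sup_comm, hsup]; exact Subgroup.mem_top _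
        obtain ⟨k, hk, m, hm, hkm⟩ := Subgroup.mem_sup_of_normal_left.1 h2
        refine ⟨k, hk, ?_⟩
        rw [← hg, ← hkm]
        apply QuotientGroup.eq.2
        simpa using hm
      choose g hg hgy using h1
      refine ⟨((sTup g 1 hg : SymEP α n) : SymEP α n ⧸ symU α n M), ?_⟩
      funext i
      exact hgy i
  rw [Subgroup.index, Nat.card_congr (Equiv.ofBijective ψ hψ), Nat.card_fun, Nat.card_fin]
  rfl

/-- Coordinates of the conjugate by an element of a factor. -/
theorem sFac_conj_left (w : SymEP α n) (i j : Fin n) (k : α.ker) :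
    (sFac α i k * w * (sFac α i k)⁻¹).1.1.left j
      = (Pi.mulSingle i (k : E) : Fin n → E) j * w.1.1.left j *
        (Pi.mulSingle i (k : E)⁻¹ : Fin n → E) (w.1.1.right⁻¹ j) :=
  conj_fac_left w.1.1 i j (k : E)

/-- The coordinates of the conjugate by a diagonal element. -/
theorem sConst_conj_left (w : SymEP α n) (j : Fin n) (x : E) :
    (sConst α n x * w * (sConst α n x)⁻¹).1.1.left j = x * w.1.1.left j * x⁻¹ := by
  rw [sym_mul_left, sym_mul_left, sym_inv_left]
  rfl

/-- The core of the subgroup of product type. -/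
theorem core_symU {M : Subgroup E} (hker : ¬ α.ker ≤ M) (hc : M.normalCore = ⊥) (hn : 0 < n)
    (N : Subgroup (SymEP α n)) (hN : N.Normal) (hle : N ≤ symU α n M) : N = ⊥ := by
  classical
  rw [eq_bot_iff]
  intro w hw
  have hr : w.1.1.right = 1 := by
    by_contra hne
    obtain ⟨i, hi⟩ : ∃ i, w.1.1.right⁻¹ i ≠ i := by
      by_contra hcon
      push Not at hcon
      apply hne
      have : w.1.1.right⁻¹ = 1 := Equiv.ext hcon
      rwa [inv_eq_one] at this
    apply hker
    intro k hk
    have h1 := hle (hN.conj_mem w hw (sFac α i ⟨k, hk⟩)) i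
    rw [sFac_conj_left, Pi.mulSingle_eq_same, Pi.mulSingle_eq_of_ne hi, mul_one] at h1
    exact (M.mul_mem_cancel_right (hle hw i)).1 h1
  have hl : ∀ i, w.1.1.left i = 1 := by
    intro i
    have : w.1.1.left i ∈ M.normalCore := by
      intro g
      have h1 := hle (hN.conj_mem w hw (sConst α n g)) i
      rwa [sConst_conj_left] at h1
    rw [hc] at this
    exact Subgroup.mem_bot.1 this
  rw [Subgroup.mem_bot]
  apply sym_ext
  · exact hl
  · exact hr
  · have h2 := w.2 ⟨0, hn⟩
    rw [← h2, hl, map_one]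
    rfl

/-- The subgroup of diagonal type. -/
def symD (α : E →* Γ) (n : ℕ) : Subgroup (SymEP α n) where
  carrier := {z | ∀ i j, z.1.1.left i = z.1.1.left j}
  mul_mem' := by
    intro a b ha hb i j
    rw [sym_mul_left, sym_mul_left, ha i j, hb _ (a.1.1.right⁻¹ j)]
  one_mem' := fun _ _ => rfl
  inv_mem' := by
    intro a ha i j
    rw [sym_inv_left, sym_inv_left, ha _ (a.1.1.right j)]

theorem mem_symD {z : SymEP α n} :
    z ∈ symD α n ↔ ∀ i j, z.1.1.left i = z.1.1.left j := Iff.rfl

/-- **Maximal subgroups of diagonal type.** -/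
theorem coatom_symD [IsSimpleGroup α.ker] (hna : ∃ a b : α.ker, a * b ≠ b * a) (hn : 2 ≤ n) :
    IsCoatom (symD α n) := by
  classical
  have hnt : Nontrivial α.ker := inferInstance
  constructor
  · intro h
    obtain ⟨x, hx⟩ := exists_ne (1 : α.ker)
    have h1 : sFac α (⟨0, by omega⟩ : Fin n) x ∈ symD α n := by rw [h]; exact Subgroup.mem_top _
    have h2 := h1 ⟨0, by omega⟩ ⟨1, by omega⟩
    rw [sFac_left, sFac_left, Pi.mulSingle_eq_same, Pi.mulSingle_eq_of_ne] at h2
    · exact hx (Subtype.ext h2)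
    · intro h3
      have := congrArg Fin.val h3
      simp at this
  · intro Y hlt
    have hr : ∀ σ, sPerm α σ ∈ Y := fun σ => hlt.le (fun _ _ => rfl)
    have hc : ∀ x : E, sConst α n x ∈ Y := fun x => hlt.le (fun _ _ => rfl)
    -- tuples of elements of the kernel in `Y`
    let B : Subgroup (Fin n → α.ker) :=
      { carrier := {f | sTup (fun i => (f i : E)) 1 (fun i => (f i).2) ∈ Y}
        mul_mem' := by
          intro a b ha hb
          have h1 := Y.mul_mem ha hb
          have h2 : sTup (α := α) (fun i => (a i : E)) 1 (fun i => (a i).2) *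
              sTup (fun i => (b i : E)) 1 (fun i => (b i).2) =
              sTup (fun i => ((a * b) i : E)) 1 (fun i => ((a * b) i).2) := by
            apply sym_ext
            · intro i; rfl
            · rfl
            · exact mul_one _
          rwa [h2] at h1
        one_mem' := Y.one_mem
        inv_mem' := by
          intro a ha
          have h1 := Y.inv_mem ha
          have h2 : (sTup (α := α) (fun i => (a i : E)) 1 (fun i => (a i).2))⁻¹ =
              sTup (fun i => ((a⁻¹) i : E)) 1 (fun i => ((a⁻¹) i).2) := by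
            apply sym_ext
            · intro i; rfl
            · rfl
            · exact inv_one
          rwa [h2] at h1 }
    have hBc : ∀ g : α.ker, (fun _ => g) ∈ B := by
      intro g
      have h1 := hc (g : E)
      have h2 : sConst α n (g : E) = sTup (fun _ => (g : E)) 1 (fun _ => g.2) := by
        apply sym_ext
        · intro i; rfl
        · rfl
        · exact g.2
      rw [h2] at h1
      exact h1
    have hBσ : ∀ f ∈ B, ∀ σ : Equiv.Perm (Fin n), (fun i => f (σ⁻¹ i)) ∈ B := by
      intro f hf σ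
      have h1 : sPerm α σ * sTup (fun i => (f i : E)) 1 (fun i => (f i).2) *
          (sPerm α σ)⁻¹ ∈ Y := Y.mul_mem (Y.mul_mem (hr _) hf) (Y.inv_mem (hr _))
      have h2 := sPerm_conj (α := α) σ (fun i => (f i : E)) 1 (fun i => (f i).2)
      have h3 := (congrArg (fun y => y ∈ Y) h2).mp h1
      exact h3
    obtain ⟨f₀, hf₀, hne₀, j₀, hj₀⟩ : ∃ f ∈ B, f ≠ 1 ∧ ∃ j, f j = 1 := by
      obtain ⟨w, hw, hwD⟩ := SetLike.exists_of_lt hlt
      rw [mem_symD] at hwD
      push Not at hwD
      obtain ⟨i, j, hij⟩ := hwD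
      have h1 : sTup w.1.1.left w.1.2 w.2 ∈ Y := by
        rw [sTup_eq]
        exact Y.mul_mem hw (Y.inv_mem (hr _))
      have hk : ∀ k, α (w.1.1.left k * (w.1.1.left j)⁻¹) = 1 := by
        intro k
        have h2 := w.2 k
        have h3 := w.2 j
        rw [map_mul, map_inv, h2, h3, mul_inv_cancel]
      refine ⟨fun k => ⟨w.1.1.left k * (w.1.1.left j)⁻¹, hk k⟩, ?_, ?_, j, ?_⟩
      · have h4 := Y.mul_mem h1 (Y.inv_mem (hc (w.1.1.left j)))
        have h5 : sTup w.1.1.left w.1.2 w.2 * (sConst α n (w.1.1.left j))⁻¹ =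
            sTup (fun k => w.1.1.left k * (w.1.1.left j)⁻¹) 1 hk := by
          apply sym_ext
          · intro i; rfl
          · rfl
          · change w.1.2 * (α (w.1.1.left j))⁻¹ = 1
            rw [w.2 j, mul_inv_cancel]
        rw [h5] at h4
        exact h4
      · intro h2
        have h3 := congrArg Subtype.val (congrFun h2 i)
        exact hij (mul_inv_eq_one.1 h3)
      · apply Subtype.ext
        exact mul_inv_cancel _
    let supp : (Fin n → α.ker) → Finset (Fin n) := fun f => Finset.univ.filter fun i => f i ≠ 1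
    have hex : ∃ m, ∃ f ∈ B, f ≠ 1 ∧ (∃ j, f j = 1) ∧ (supp f).card = m :=
      ⟨_, f₀, hf₀, hne₀, ⟨j₀, hj₀⟩, rfl⟩
    obtain ⟨f, hf, hne, ⟨j, hj⟩, hcard⟩ := Nat.find_spec hex
    have hmin : ∀ f' ∈ B, f' ≠ 1 → (∃ j, f' j = 1) → Nat.find hex ≤ (supp f').card :=
      fun f' h1 h2 h3 => Nat.find_min' hex ⟨f', h1, h2, h3, rfl⟩
    obtain ⟨i, hi⟩ : ∃ i, f i ≠ 1 := by
      by_contra hcon
      push Not at hcon
      exact hne (funext hcon)
    have hone : ∀ k, k ≠ i → f k = 1 := by
      intro k hki
      by_contra hk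
      obtain ⟨s, hs⟩ := exists_conj_ne hna hk
      let f' : Fin n → α.ker := fun l => s * f ((Equiv.swap i j)⁻¹ l) * s⁻¹
      have hf' : f' ∈ B :=
        B.mul_mem (B.mul_mem (hBc s) (hBσ f hf (Equiv.swap i j))) (B.inv_mem (hBc s))
      let c : Fin n → α.ker := f * f' * f⁻¹ * f'⁻¹
      have hkj : k ≠ j := fun h => hk (h ▸ hj)
      have hcB : c ∈ B := B.mul_mem (B.mul_mem (B.mul_mem hf hf') (B.inv_mem hf)) (B.inv_mem hf')
      have hck : c k ≠ 1 := by
        change f k * (s * f ((Equiv.swap i j)⁻¹ k) * s⁻¹) * (f k)⁻¹ *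
          (s * f ((Equiv.swap i j)⁻¹ k) * s⁻¹)⁻¹ ≠ 1
        rw [Equiv.swap_inv, Equiv.swap_apply_of_ne_of_ne hki hkj]
        exact hs
      have hci : c i = 1 := by
        change f i * (s * f ((Equiv.swap i j)⁻¹ i) * s⁻¹) * (f i)⁻¹ *
          (s * f ((Equiv.swap i j)⁻¹ i) * s⁻¹)⁻¹ = 1
        rw [Equiv.swap_inv, Equiv.swap_apply_left, hj]
        simp
      have hsub : supp c ⊂ supp f := by
        rw [Finset.ssubset_iff_of_subset]
        · refine ⟨i, ?_, ?_⟩
          · simp [supp, hi]
          · simp [supp, hci]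
        · intro l hl
          simp only [supp, Finset.mem_filter, Finset.mem_univ, true_and] at hl ⊢
          intro hfl
          apply hl
          change f l * f' l * (f l)⁻¹ * (f' l)⁻¹ = 1
          rw [hfl]
          simp
      have h1 := hmin c hcB (fun h => hck (congrFun h k)) ⟨i, hci⟩
      have h2 := Finset.card_lt_card hsub
      omega
    -- the normal subgroup of the kernel
    let X : Subgroup α.ker := Y.comap (sFac α i)
    have hXn : X.Normal := by
      constructor
      intro x hx g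
      have h1 := sTup_conj_fac (α := α) (fun _ : Fin n => (g : E)) (α (g : E)) (fun _ => rfl) i x
      have h2 : sTup (fun _ : Fin n => (g : E)) (α (g : E)) (fun _ => rfl) * sFac α i x *
          (sTup (fun _ : Fin n => (g : E)) (α (g : E)) (fun _ => rfl))⁻¹ ∈ Y :=
        Y.mul_mem (Y.mul_mem (hc g) hx) (Y.inv_mem (hc g))
      rw [h1] at h2
      exact h2
    have hXtop : X = ⊤ := by
      rcases hXn.eq_bot_or_eq_top with h | h
      · exfalso
        have h1 : f i ∈ X := by
          change sFac α i (f i) ∈ Y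
          have h2 : sFac α i (f i) = sTup (fun k => (f k : E)) 1 (fun k => (f k).2) := by
            apply sym_ext
            · intro k
              rw [sFac_left]
              by_cases hki : k = i
              · subst hki; rw [Pi.mulSingle_eq_same]; rfl
              · rw [Pi.mulSingle_eq_of_ne hki]
                change (1 : E) = (f k : E)
                rw [hone k hki]
                rfl
            · rfl
            · rfl
          rw [h2]
          exact hf
        rw [h, Subgroup.mem_bot] at h1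
        exact hi h1
      · exact h
    have hfac : ∀ k (x : α.ker), sFac α k x ∈ Y := by
      intro k x
      have h1 := sPerm_conj_fac (Equiv.swap i k) i x
      rw [Equiv.swap_apply_left] at h1
      rw [← h1]
      have h2 : x ∈ X := by rw [hXtop]; exact Subgroup.mem_top _
      exact Y.mul_mem (Y.mul_mem (hr _) h2) (Y.inv_mem (hr _))
    rw [eq_top_iff]
    intro z _
    have hk1 : ∀ k, α (z.1.1.left k * (z.1.1.left i)⁻¹) = 1 := by
      intro k
      have h2 := z.2 k
      have h3 := z.2 i
      rw [map_mul, map_inv, h2, h3, mul_inv_cancel]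
    have h3 : sTup (fun k => z.1.1.left k * (z.1.1.left i)⁻¹) 1 hk1 ∈ Y :=
      sTup_mem_of_fac _ hk1 fun k => hfac k _
    have h4 : z = sTup (fun k => z.1.1.left k * (z.1.1.left i)⁻¹) 1 hk1 *
        sConst α n (z.1.1.left i) * sPerm α z.1.1.right := by
      apply sym_ext
      · intro k
        rw [sym_mul_left, sym_mul_left]
        change _ = z.1.1.left k * (z.1.1.left i)⁻¹ * z.1.1.left i * 1
        simp
      · change _ = 1 * 1 * z.1.1.right
        simp
      · change _ = 1 * α (z.1.1.left i) * 1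
        rw [one_mul, mul_one, z.2 i]
    rw [h4]
    exact Y.mul_mem (Y.mul_mem h3 (hc _)) (hr _)

end Pool.Agent.H96S.WP
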